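import Pool.Agent.Helper927.Cube.Defs
set_option autoImplicit false
set_option maxHeartbeats 4000000

namespace Pool.Agent.CubeLike

open Finset

/-! ### AVAILABLE: statements you may use; leave these `sorry`s in place (they are proved in other jobs) -/



/-! ### TARGET: replace the `sorry`s below by proofs (auxiliary lemmas are fine, put them in this file) -/

theorem att_of_group {V : Type} [AddCommGroup V] [Finite V] (h2 : ∀ x : V, x + x = 0)
    (S : Set V) (m : ℕ) (h : (cay S).chromaticNumber = (m : ℕ∞)) : Att m := by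
  classical
  let _ : Module (ZMod 2) V := AddCommGroup.zmodModule (n := 2) (by
    intro x
    rw [two_nsmul]
    exact h2 x)
  have : FiniteDimensional (ZMod 2) V := Module.Finite.of_finite
  let b := Module.finBasis (ZMod 2) V
  let e : V ≃ₗ[ZMod 2] (Fin (Module.finrank (ZMod 2) V) → ZMod 2) := b.equivFun
  refine ⟨Module.finrank (ZMod 2) V, {x | e.symm x ∈ S}, ?_⟩
  let φ : cay S ≃g cay {x | e.symm x ∈ S} :=
    { toEquiv := e.toEquiv
      map_rel_iff' := by
        intro x y
        change (cay {x | e.symm x ∈ S}).Adj (e x) (e y) ↔ (cay S).Adj x y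
        rw [cay, cay, SimpleGraph.fromRel_adj, SimpleGraph.fromRel_adj]
        have h1 : (e x + e y ∈ {x | e.symm x ∈ S}) ↔ x + y ∈ S := by
          change e.symm (e x + e y) ∈ S ↔ _
          rw [← map_add, e.symm_apply_apply]
        have h3 : (e y + e x ∈ {x | e.symm x ∈ S}) ↔ y + x ∈ S := by
          change e.symm (e y + e x) ∈ S ↔ _
          rw [← map_add, e.symm_apply_apply]
        rw [h1, h3, e.injective.ne_iff] }
  rw [← h]
  exact le_antisymm (SimpleGraph.chromaticNumber_mono_of_hom φ.symm.toHom)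
    (SimpleGraph.chromaticNumber_mono_of_hom φ.toHom)

theorem chrom_of_colorable {V : Type} (G : SimpleGraph V) (m : ℕ) (hm : 0 < m)
    (h : G.Colorable m) (h' : ¬ G.Colorable (m - 1)) : G.chromaticNumber = (m : ℕ∞) := by
  refine le_antisymm h.chromaticNumber_le ?_
  by_contra hlt
  push Not at hlt
  apply h'
  rw [← SimpleGraph.chromaticNumber_le_iff_colorable]
  have h3 : ((m - 1 : ℕ) : ℕ∞) + 1 = (m : ℕ∞) := by
    have : m - 1 + 1 = m := by omega
    exact_mod_cast this
  rw [← h3] at hlt
  exact Order.le_of_lt_add_one hlt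

theorem att_of_colorable {V : Type} [AddCommGroup V] [Finite V] (h2 : ∀ x : V, x + x = 0)
    (S : Set V) (m : ℕ) (hm : 0 < m) (h : (cay S).Colorable m) (h' : ¬ (cay S).Colorable (m - 1)) :
    Att m :=
  att_of_group h2 S m (chrom_of_colorable _ m hm h h')

theorem Att.exists_colorable {m : ℕ} (h : Att m) : 0 < m ∧ ∃ (d : ℕ) (S : Set (Fin d → ZMod 2)),
    (cay S).Colorable m ∧ ¬ (cay S).Colorable (m - 1) := by
  obtain ⟨d, S, hS⟩ := h
  have hm : 0 < m := by
    rcases Nat.eq_zero_or_pos m with h0 | h0
    · exfalso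
      rw [h0] at hS
      have h1 : (cay S).chromaticNumber = 0 := by simpa using hS
      have h2 := SimpleGraph.chromaticNumber_eq_zero_iff.1 h1
      exact h2.elim 0
    · exact h0
  refine ⟨hm, d, S, SimpleGraph.chromaticNumber_le_iff_colorable.1 hS.le, fun hc => ?_⟩
  have h1 := SimpleGraph.chromaticNumber_le_iff_colorable.2 hc
  rw [hS] at h1
  have h3 : m ≤ m - 1 := by exact_mod_cast h1
  omega

end Pool.Agent.CubeLike
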