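import Pool.Agent.Helper927.Cube.Defs
import Pool.Agent.Helper927.Cube.TR
set_option autoImplicit false
set_option maxHeartbeats 4000000

namespace Pool.Agent.CubeLike

open Finset

/-! ### TARGET: replace the `sorry`s below by proofs (auxiliary lemmas are fine, put them in this file) -/

theorem lex_adj {V : Type} [AddCommGroup V] (S : Set V) (x y : V) :
    (cay S).Adj x y ↔ x ≠ y ∧ x + y ∈ S := by
  unfold cay
  rw [SimpleGraph.fromRel_adj, add_comm y x, or_self]

theorem lex {V : Type} [AddCommGroup V] [Fintype V] [DecidableEq V] (h2 : ∀ x : V, x + x = 0)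
    (S : Set V) (b m a : ℕ) (hm : 0 < m) (I : Fin m → Finset V)
    (hI : ∀ i, ∀ x ∈ I i, ∀ y ∈ I i, ¬ (cay S).Adj x y)
    (hcov : ∀ x, b ≤ (univ.filter (fun i => x ∈ I i)).card)
    (hα : ∀ J : Finset V, (∀ x ∈ J, ∀ y ∈ J, ¬ (cay S).Adj x y) → J.card ≤ a)
    (hlow : (m - 1) * a < b * Fintype.card V) (hb : Att b) : Att m := by
  classical
  obtain ⟨hb0, d, S0, hcol, hncol⟩ := hb.exists_colorable
  have heq : ∀ x y : V, x + y = 0 ↔ x = y := by
    intro x y
    constructor
    · intro h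
      have h3 : x + y = y + y := by rw [h, h2]
      exact add_right_cancel h3
    · rintro rfl; exact h2 x
  set T : Set (V × (Fin d → ZMod 2)) := {s | (s.1 ≠ 0 ∧ s.1 ∈ S) ∨ (s.1 = 0 ∧ s.2 ∈ S0)} with hT
  have hadj1 : ∀ x x' : V, ∀ y y' : Fin d → ZMod 2, (cay S).Adj x x' →
      (cay T).Adj (x, y) (x', y') := by
    intro x x' y y' h
    rw [lex_adj] at h ⊢
    refine ⟨fun h' => h.1 (Prod.ext_iff.1 h').1, Or.inl ⟨?_, h.2⟩⟩
    show x + x' ≠ 0
    rw [Ne, heq]; exact h.1
  have hadj2 : ∀ x : V, ∀ y y' : Fin d → ZMod 2, (cay S0).Adj y y' →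
      (cay T).Adj (x, y) (x, y') := by
    intro x y y' h
    rw [lex_adj] at h ⊢
    refine ⟨fun h' => h.1 (Prod.ext_iff.1 h').2, Or.inr ⟨h2 x, h.2⟩⟩
  have hadj3 : ∀ p q : V × (Fin d → ZMod 2), (cay T).Adj p q →
      (cay S).Adj p.1 q.1 ∨ (p.1 = q.1 ∧ (cay S0).Adj p.2 q.2) := by
    intro p q h
    rw [lex_adj] at h
    obtain ⟨hne, h | h⟩ := h
    · left
      rw [lex_adj]
      refine ⟨fun h' => h.1 ?_, h.2⟩
      show p.1 + q.1 = 0
      rw [heq]; exact h'
    · right
      have h1 : p.1 = q.1 := (heq _ _).1 h.1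
      refine ⟨h1, ?_⟩
      rw [lex_adj]
      exact ⟨fun h' => hne (Prod.ext h1 h'), h.2⟩
  have h2' : ∀ x : V × (Fin d → ZMod 2), x + x = 0 := by
    intro x
    refine Prod.ext (h2 x.1) ?_
    funext i
    exact CharTwo.add_self_eq_zero _
  apply att_of_colorable (V := V × (Fin d → ZMod 2)) h2' T m hm
  · obtain ⟨c⟩ := hcol
    refine ⟨SimpleGraph.Coloring.mk
      (fun p : V × (Fin d → ZMod 2) => Finset.orderEmbOfCardLe _ (hcov p.1) (c p.2)) ?_⟩
    intro p q hpq heq'
    rcases hadj3 p q hpq with h | ⟨h1, h3⟩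
    · have m1 := Finset.orderEmbOfCardLe_mem _ (hcov p.1) (c p.2)
      have m2 := Finset.orderEmbOfCardLe_mem _ (hcov q.1) (c q.2)
      rw [← heq'] at m2
      exact hI _ _ (Finset.mem_filter.1 m1).2 _ (Finset.mem_filter.1 m2).2 h
    · obtain ⟨p1, p2⟩ := p
      obtain ⟨q1, q2⟩ := q
      simp only at h1 h3 heq'
      subst h1
      exact c.valid h3 ((Finset.orderEmbOfCardLe _ (hcov p1)).injective heq')
  · rintro ⟨C⟩
    set J : Fin (m - 1) → Finset V := fun i => univ.filter (fun x => ∃ y, C (x, y) = i) with hJ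
    have hJa : ∀ i, (J i).card ≤ a := by
      intro i
      apply hα
      intro x hx x' hx' hxx
      obtain ⟨y, hy⟩ := (Finset.mem_filter.1 hx).2
      obtain ⟨y', hy'⟩ := (Finset.mem_filter.1 hx').2
      exact C.valid (hadj1 x x' y y' hxx) (hy.trans hy'.symm)
    have hbx : ∀ x : V, b ≤ (univ.filter (fun i : Fin (m - 1) => ∃ y, C (x, y) = i)).card := by
      intro x
      by_contra hlt
      push Not at hlt
      apply hncol
      set im := univ.filter (fun i : Fin (m - 1) => ∃ y, C (x, y) = i) with him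
      have hc : (cay S0).Colorable (Fintype.card {i // i ∈ im}) := by
        refine (SimpleGraph.Coloring.mk (fun y : Fin d → ZMod 2 =>
          (⟨C (x, y), Finset.mem_filter.2 ⟨Finset.mem_univ _, y, rfl⟩⟩ : {i // i ∈ im})) ?_).colorable
        intro y y' hyy h'
        exact C.valid (hadj2 x y y' hyy) (Subtype.ext_iff.1 h')
      refine hc.mono ?_
      rw [Fintype.card_coe]
      omega
    have hdc := Finset.sum_card_bipartiteAbove_eq_sum_card_bipartiteBelow
      (s := (univ : Finset V)) (t := (univ : Finset (Fin (m - 1))))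
      (fun x i => ∃ y, C (x, y) = i)
    have h1 : b * Fintype.card V ≤
        ∑ x : V, ((univ : Finset (Fin (m - 1))).bipartiteAbove (fun x i => ∃ y, C (x, y) = i) x).card := by
      calc b * Fintype.card V = ∑ _x : V, b := by
            rw [Finset.sum_const, Finset.card_univ, smul_eq_mul, mul_comm]
        _ ≤ _ := Finset.sum_le_sum fun x _ => hbx x
    have h3 : ∑ i : Fin (m - 1), ((univ : Finset V).bipartiteBelow (fun x i => ∃ y, C (x, y) = i) i).card
        ≤ (m - 1) * a := by
      calc _ ≤ ∑ _i : Fin (m - 1), a := Finset.sum_le_sum fun i _ => hJa i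
        _ = (m - 1) * a := by
            rw [Finset.sum_const, Finset.card_univ, smul_eq_mul, Fintype.card_fin]
    rw [← hdc] at h3
    omega

end Pool.Agent.CubeLike
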