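import Pool.Agent.Helper927.Cube.Defs
import Pool.Agent.Helper927.Cube.LEX
set_option autoImplicit false
set_option maxHeartbeats 4000000

namespace Pool.Agent.CubeLike

open Finset

/-! ### TARGET: replace the `sorry`s below by proofs (auxiliary lemmas are fine, put them in this file) -/


theorem maskInd_spec {n : ℕ} {gens : List ℕ} {M : ℕ} (h : maskInd n gens M = true) (x y : XN n)
    (hx : M.testBit x.1 = true) (hy : M.testBit y.1 = true) : (x.1 ^^^ y.1) ∉ gens := by
  intro hg
  unfold maskInd at h
  rw [List.all_eq_true] at h
  have h1 := h x.1 (List.mem_range.mpr x.2)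
  rw [hx] at h1
  simp only [Bool.not_true, Bool.false_or] at h1
  rw [List.all_eq_true] at h1
  have h2 := h1 _ hg
  rw [← Nat.xor_assoc, Nat.xor_self, Nat.zero_xor, hy] at h2
  simp at h2

theorem count_lem (p : ℕ → Bool) (l : List ℕ) :
    ∑ i : Fin l.length, (if p (l.get i) = true then 1 else 0) = l.countP p := by
  induction l with
  | nil => rfl
  | cons x l ih =>
    rw [List.countP_cons, ← ih]
    have := Fin.sum_univ_succ (fun i : Fin (l.length + 1) =>
      if p ((x :: l).get i) = true then 1 else 0)
    refine this.trans ?_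
    simp [add_comm]

theorem direct_att (n b m a : ℕ) (gens sets : List ℕ) (hm : 0 < m) (hlen : sets.length = m)
    (hind : sets.all (maskInd n gens) = true)
    (hcov : ((List.range (2 ^ n)).all fun x => decide (b ≤ sets.countP fun M => M.testBit x)) = true)
    (hα : ∀ A : Finset (XN n), Ind (farSet n gens) A → A.card ≤ a)
    (hlow : (m - 1) * a < b * 2 ^ n) (hb : Att b) : Att m := by
  subst hlen
  have hind' : ∀ M ∈ sets, maskInd n gens M = true := List.all_eq_true.mp hind
  have hcov' : ∀ x : XN n, b ≤ sets.countP fun M => M.testBit x.1 := by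
    intro x
    have h1 := List.all_eq_true.mp hcov x.1 (List.mem_range.mpr x.2)
    exact of_decide_eq_true h1
  have h0 : (0 : ℕ) ∉ gens := by
    intro h0
    have h1 := hcov' 0
    have h2 : (sets.countP fun M => M.testBit (0 : XN n).1) = 0 := by
      rw [List.countP_eq_zero]
      intro M hM hbit
      have h3 := maskInd_spec (hind' M hM) 0 0 hbit hbit
      apply h3
      rw [Nat.xor_self]
      exact h0
    rw [h2] at h1
    have h3 : b = 0 := by omega
    rw [h3, zero_mul] at hlow
    exact absurd hlow (Nat.not_lt_zero _)
  refine lex (V := XN n) XN.add_self (↑(farSet n gens) : Set (XN n)) b sets.length a hm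
    (fun i => maskSet n (sets.get i)) ?_ ?_ ?_ ?_ hb
  · intro i x hx y hy hadj
    unfold cay at hadj
    rw [SimpleGraph.fromRel_adj] at hadj
    obtain ⟨_, hadj⟩ := hadj
    have hmem : x + y ∈ (↑(farSet n gens) : Set (XN n)) := by
      rcases hadj with h | h
      · exact h
      · rw [add_comm]; exact h
    have h1 : (x + y) ∈ farSet n gens := Finset.mem_coe.mp hmem
    unfold farSet at h1
    rw [Finset.mem_filter] at h1
    have h2 := h1.2
    rw [XN.add_val] at h2
    unfold maskSet at hx hy
    rw [Finset.mem_filter] at hx hy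
    exact maskInd_spec (hind' (sets.get i) (List.get_mem _ _)) x y hx.2 hy.2 h2
  · intro x
    refine (hcov' x).trans (le_of_eq ?_)
    rw [← count_lem, Finset.card_filter]
    apply Finset.sum_congr rfl
    intro i _
    simp [maskSet]
  · intro J hJ
    apply hα J
    intro x hx y hy hmem
    by_cases hxy : x = y
    · rw [hxy, XN.add_self] at hmem
      unfold farSet at hmem
      rw [Finset.mem_filter] at hmem
      exact h0 hmem.2
    · apply hJ x hx y hy
      unfold cay
      rw [SimpleGraph.fromRel_adj]
      exact ⟨hxy, Or.inl (Finset.mem_coe.mpr hmem)⟩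
  · rw [XN.card]
    exact hlow

end Pool.Agent.CubeLike
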