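import Pool.Agent.Helper927.Cube.AGO
import Pool.Agent.Helper927.Cube.DIR
set_option autoImplicit false
set_option maxHeartbeats 4000000
set_option maxRecDepth 1000000

namespace Pool.Agent.CubeLike

open Finset

/-- Generators. -/
def gcl : List ℕ := [1, 2, 4, 8, 15]

theorem alpha_gcl (A : Finset (XN 4)) (hA : Ind (farSet 4 gcl) A) : A.card ≤ 5 :=
  alpha_of_go 4 5 2 gcl [0, 2] [
   [13, 15], [8, 10], [1, 3], [9, 11], [12, 14], [4, 6], [5, 7]]
    (by decide +kernel) (by decide +kernel) (by decide +kernel) (by decide) (by decide +kernel)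
    (by decide) A hA

/-- Generators. -/
def g32 : List ℕ := [
   7, 11, 13, 14, 19, 21, 22, 25, 26, 28, 15, 23, 27, 29, 30, 31]

theorem alpha_g32 (A : Finset (XN 5)) (hA : Ind (farSet 5 g32) A) : A.card ≤ 6 :=
  alpha_of_go 5 6 1 g32 [0, 15, 22, 25] [
   [4, 11, 18, 29], [5, 10, 19, 28], [7, 8, 17, 30], [2, 13, 20, 27], [3, 12, 21, 26],
   [1, 14, 23, 24], [6, 9, 16, 31]]
    (by decide +kernel) (by decide +kernel) (by decide +kernel) (by decide) (by decide +kernel)
    (by decide) A hA

/-- Generators. -/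
def g64 : List ℕ := [
   1, 13, 15, 21, 23, 30, 31, 45, 46, 48, 49, 53, 55]

theorem alpha_g64 (A : Finset (XN 6)) (hA : Ind (farSet 6 g64) A) : A.card ≤ 11 :=
  alpha_of_go 6 11 4 g64 [0, 31, 46, 49] [
   [11, 20, 37, 58], [8, 23, 38, 57], [13, 18, 35, 60], [12, 19, 34, 61], [4, 27, 42, 53],
   [10, 21, 36, 59], [9, 22, 39, 56], [1, 30, 47, 48], [5, 26, 43, 52], [14, 17, 32, 63],
   [15, 16, 33, 62], [7, 24, 41, 54], [3, 28, 45, 50], [2, 29, 44, 51], [6, 25, 40, 55]]
    (by decide +kernel) (by decide +kernel) (by decide +kernel) (by decide) (by decide +kernel)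
    (by decide) A hA

/-- Generators. -/
def g6 : List ℕ := [
   5, 1, 9, 2, 18, 23, 4, 8, 11, 16, 40, 52, 32, 63, 48]

theorem alpha_g6 (A : Finset (XN 6)) (hA : Ind (farSet 6 g6) A) : A.card ≤ 12 :=
  alpha_of_go 6 12 3 g6 [0, 8, 32, 40] [
   [1, 9, 33, 41], [16, 24, 48, 56], [23, 31, 55, 63], [3, 11, 35, 43], [20, 28, 52, 60],
   [4, 12, 36, 44], [2, 10, 34, 42], [18, 26, 50, 58], [5, 13, 37, 45], [19, 27, 51, 59],
   [21, 29, 53, 61], [7, 15, 39, 47], [17, 25, 49, 57], [6, 14, 38, 46], [22, 30, 54, 62]]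
    (by decide +kernel) (by decide +kernel) (by decide +kernel) (by decide) (by decide +kernel)
    (by decide) A hA

theorem att_seven_of (hb : Att 2) : Att 7 :=
  direct_att 4 2 7 5 gcl [24856, 17044, 16937, 26753, 37954, 37954, 18724]
    (by decide) (by decide) (by decide +kernel) (by decide +kernel) alpha_gcl (by decide) hb

theorem att_six_of (hb : Att 1) : Att 6 :=
  direct_att 6 1 6 12 g6 [
   82296255312592905, 4618451863832953440, 2882304040698516480, 1171505589742995600,
   9367487310832615680, 324699013289877510]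
    (by decide) (by decide) (by decide +kernel) (by decide +kernel) alpha_g6 (by decide) hb

end Pool.Agent.CubeLike
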