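import Pool.Agent.Helper927.Cube.AGO
import Pool.Agent.Helper927.Cube.DIR
set_option autoImplicit false
set_option maxHeartbeats 4000000
set_option maxRecDepth 1000000

namespace Pool.Agent.CubeLike

open Finset

/-- Generators. -/
def g39 : List ℕ := [
   2, 5, 7, 8, 13, 17, 19, 20, 22, 25, 28, 40, 41, 44, 48, 50, 51, 53, 55, 58, 63, 64, 65, 71,
   77, 79, 81, 86, 90, 92, 94, 99, 100, 108, 110, 112, 119, 120, 122]

theorem alpha_g39 (A : Finset (XN 7)) (hA : Ind (farSet 7 g39) A) : A.card ≤ 14 :=
  alpha_of_go 7 14 1 g39 [0, 7, 48, 55, 64, 71, 112, 119] [
   [19, 20, 35, 36, 83, 84, 99, 100], [25, 30, 41, 46, 89, 94, 105, 110],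
   [27, 28, 43, 44, 91, 92, 107, 108], [17, 22, 33, 38, 81, 86, 97, 102],
   [2, 5, 50, 53, 66, 69, 114, 117], [8, 15, 56, 63, 72, 79, 120, 127],
   [10, 13, 58, 61, 74, 77, 122, 125], [1, 6, 49, 54, 65, 70, 113, 118],
   [26, 29, 42, 45, 90, 93, 106, 109], [24, 31, 40, 47, 88, 95, 104, 111],
   [3, 4, 51, 52, 67, 68, 115, 116], [11, 12, 59, 60, 75, 76, 123, 124],
   [18, 21, 34, 37, 82, 85, 98, 101], [9, 14, 57, 62, 73, 78, 121, 126],
   [16, 23, 32, 39, 80, 87, 96, 103]]
    (by decide +kernel) (by decide +kernel) (by decide +kernel) (by decide) (by decide +kernel)
    (by decide) A hA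

theorem att_ten_of (hb : Att 1) : Att 10 :=
  direct_att 7 1 10 14 g39 [
   41888246433986474833726288393953282, 23405979914101383662160496501456960,
   87147510475553814010122553925384143872, 332470525874924031706305225440624652,
   21268956346048496416953316515814310016, 2867445940590086072588569415963120000,
   63823713000047588637095894294601957888, 180775009974448503560241804751679782929,
   649987845427806465269656115546112, 5332570023163216619469979706485375008]
    (by decide) (by decide) (by decide +kernel) (by decide +kernel) alpha_g39 (by decide) hb

theorem att_nineteen_of (hb : Att 2) : Att 19 :=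
  direct_att 7 2 19 14 g39 [
   5649868024146482988894238391381526576, 255461005460999603470607749906421515266,
   360012770481493015745282390892546, 83240316279276894289230143999182852,
   5319508369872426283763735404208718336, 10717230306411243728774691649430487680,
   21600000567390723392655505274500546569, 15658022847068969709146921389522956,
   42889021093634162258260378134565191680, 208989948604686076287860817864430016,
   30582070826133966892197816582400, 172846370153500616385969572241100251200,
   86399820362359398148249418558553067520, 1996440678036785375329699861981430800,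
   63823713341714204071887782079420727296, 675079721272800738009822021512331264,
   10633988770760897627761254178805006337, 85071891151638101956302220301241944096,
   2658497507127140705560160415906856960]
    (by decide) (by decide) (by decide +kernel) (by decide +kernel) alpha_g39 (by decide) hb

end Pool.Agent.CubeLike
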