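import Pool.Agent.Helper927.Cube.AGO
import Pool.Agent.Helper927.Cube.DIR
set_option autoImplicit false
set_option maxHeartbeats 4000000
set_option maxRecDepth 1000000

namespace Pool.Agent.CubeLike

open Finset

/-- Generators. -/
def g48 : List ℕ := [
   2, 4, 5, 7, 10, 11, 15, 16, 24, 25, 31, 32, 33, 37, 39, 43, 48, 49, 52, 58, 64, 65, 67, 71,
   76, 78, 79, 80, 81, 82, 88, 91, 93, 94, 98, 100, 101, 102, 104, 108, 109, 114, 115, 118,
   120, 123, 125, 126]

theorem alpha_g48 (A : Finset (XN 7)) (hA : Ind (farSet 7 g48) A) : A.card ≤ 12 :=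
  alpha_of_go 7 12 3 g48 [0, 11, 49, 58, 71, 76, 118, 125] [
   [17, 26, 32, 43, 86, 93, 103, 108], [20, 31, 37, 46, 83, 88, 98, 105],
   [5, 14, 52, 63, 66, 73, 115, 120], [16, 27, 33, 42, 87, 92, 102, 109],
   [4, 15, 53, 62, 67, 72, 114, 121], [18, 25, 35, 40, 85, 94, 100, 111],
   [1, 10, 48, 59, 70, 77, 119, 124], [21, 30, 36, 47, 82, 89, 99, 104],
   [22, 29, 39, 44, 81, 90, 96, 107], [2, 9, 51, 56, 69, 78, 116, 127],
   [6, 13, 55, 60, 65, 74, 112, 123], [7, 12, 54, 61, 64, 75, 113, 122],
   [23, 28, 38, 45, 80, 91, 97, 106], [19, 24, 34, 41, 84, 95, 101, 110],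
   [3, 8, 50, 57, 68, 79, 117, 126]]
    (by decide +kernel) (by decide +kernel) (by decide +kernel) (by decide) (by decide +kernel)
    (by decide) A hA

theorem att_eleven_of (hb : Att 1) : Att 11 :=
  direct_att 7 1 11 12 g48 [
   172799643267370268096812930719872532480, 337509654887202168450208349135306752,
   42535296498942608047054823109491426048, 21093705990820052654704310987784384,
   21267648249471304028202149887650834472, 86402456445481885224071014235355742208,
   42187411977106631792920522324448256, 83157879452347832927490144240402435,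
   15952059455922148662324651516233940992, 675002395489877753193148596172701696,
   166315758904695650578770530412789780]
    (by decide) (by decide) (by decide +kernel) (by decide +kernel) alpha_g48 (by decide) hb

end Pool.Agent.CubeLike
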