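import Pool.Agent.Helper927.Cube.A6D
set_option autoImplicit false
set_option maxHeartbeats 4000000
set_option maxRecDepth 1000000

namespace Pool.Agent.CubeLike

open Finset

theorem g35T_0 : ((List.range' 0 16).all fun v => g35T.get 9 v == nbr g35 v) = true := by
  decide +kernel

theorem g35T_1 : ((List.range' 16 16).all fun v => g35T.get 9 v == nbr g35 v) = true := by
  decide +kernel

theorem g35T_2 : ((List.range' 32 16).all fun v => g35T.get 9 v == nbr g35 v) = true := by
  decide +kernel

theorem g35T_3 : ((List.range' 48 16).all fun v => g35T.get 9 v == nbr g35 v) = true := by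
  decide +kernel


end Pool.Agent.CubeLike
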