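import Pool.Agent.Helper927.Cube.A6D
set_option autoImplicit false
set_option maxHeartbeats 4000000
set_option maxRecDepth 1000000

namespace Pool.Agent.CubeLike

open Finset

theorem g35T_16 : ((List.range' 256 16).all fun v => g35T.get 9 v == nbr g35 v) = true := by
  decide +kernel

theorem g35T_17 : ((List.range' 272 16).all fun v => g35T.get 9 v == nbr g35 v) = true := by
  decide +kernel

theorem g35T_18 : ((List.range' 288 16).all fun v => g35T.get 9 v == nbr g35 v) = true := by
  decide +kernel

theorem g35T_19 : ((List.range' 304 16).all fun v => g35T.get 9 v == nbr g35 v) = true := by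
  decide +kernel


end Pool.Agent.CubeLike
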