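import Pool.Agent.Helper927.Cube.Defs
set_option autoImplicit false
set_option maxHeartbeats 4000000

namespace Pool.Agent.CubeLike

open Finset

/-! ### AVAILABLE: statements you may use; leave these `sorry`s in place (they are proved in other jobs) -/



/-! ### TARGET: replace the `sorry`s below by proofs (auxiliary lemmas are fine, put them in this file) -/

theorem kappa_two {P : Type} [AddCommGroup P] [Fintype P] [DecidableEq P] (h2 : ∀ x : P, x + x = 0)
    (F : Finset P) (c k1 k2 : ℕ) (hc : ∀ A : Finset P, Ind F A → A.card ≤ c)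
    (h1 : Fintype.card P - F.card ≤ k1)
    (hd : ∀ d : P, d ≠ 0 → d ∉ F → (univ.filter (fun y => y ∉ F ∧ y + d ∉ F)).card ≤ k2)
    (A L : Finset P) (hne : A.Nonempty) (hA : Ind F A) (hL : ∀ x ∈ A, ∀ y ∈ L, x + y ∉ F) :
    L.card + A.card ≤ max (k1 + 1) (k2 + c) := by
  rcases Nat.lt_or_ge 1 A.card with h | h
  · obtain ⟨a, ha, a', ha', hne'⟩ := Finset.one_lt_card.1 h
    have hd0 : a + a' ≠ 0 := by
      intro h0
      apply hne'
      calc a = a + (a' + a') := by rw [h2, add_zero]
        _ = (a + a') + a' := by rw [add_assoc]
        _ = a' := by rw [h0, zero_add]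
    have hdF : a + a' ∉ F := hA a ha a' ha'
    have h3 := hd (a + a') hd0 hdF
    have h4 : (L.image (fun y => a + y)).card = L.card :=
      Finset.card_image_of_injective _ (add_right_injective a)
    have h5 : L.image (fun y => a + y) ⊆ univ.filter (fun y => y ∉ F ∧ y + (a + a') ∉ F) := by
      intro z hz
      obtain ⟨y, hy, rfl⟩ := Finset.mem_image.1 hz
      rw [Finset.mem_filter]
      refine ⟨Finset.mem_univ _, hL a ha y hy, ?_⟩
      have e : a + y + (a + a') = a' + y := by
        have : a + y + (a + a') = (a + a) + (a' + y) := by abel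
        rw [this, h2, zero_add]
      rw [e]
      exact hL a' ha' y hy
    have h6 := Finset.card_le_card h5
    have h7 := hc A hA
    refine le_trans ?_ (le_max_right _ _)
    omega
  · obtain ⟨a, ha⟩ := hne
    have h4 : (L.image (fun y => a + y)).card = L.card :=
      Finset.card_image_of_injective _ (add_right_injective a)
    have h5 : L.image (fun y => a + y) ⊆ Fᶜ := by
      intro z hz
      obtain ⟨y, hy, rfl⟩ := Finset.mem_image.1 hz
      rw [Finset.mem_compl]
      exact hL a ha y hy
    have h6 := Finset.card_le_card h5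
    rw [Finset.card_compl] at h6
    refine le_trans ?_ (le_max_left _ _)
    omega

end Pool.Agent.CubeLike
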