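import Pool.Agent.Helper927.Cube.Defs
set_option autoImplicit false
set_option maxHeartbeats 4000000

namespace Pool.Agent.CubeLike

open Finset

/-! ### AVAILABLE: statements you may use; leave these `sorry`s in place (they are proved in other jobs) -/



/-! ### TARGET: replace the `sorry`s below by proofs (auxiliary lemmas are fine, put them in this file) -/

theorem kappa_card {P : Type} [AddCommGroup P] [Fintype P] [DecidableEq P] (h2 : ∀ x : P, x + x = 0)
    (F : Finset P) (hF : F.Nonempty) (A L : Finset P) (hA : Ind F A)
    (hL : ∀ x ∈ A, ∀ y ∈ L, x + y ∉ F) : L.card + A.card ≤ Fintype.card P := by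
  obtain ⟨s, hs⟩ := hF
  have hinj : Function.Injective (fun x : P => x + s) := fun x y h => add_right_cancel h
  have hdis : Disjoint L (A.image (fun x => x + s)) := by
    rw [Finset.disjoint_left]
    intro y hy hy2
    obtain ⟨x, hx, rfl⟩ := Finset.mem_image.1 hy2
    apply hL x hx (x + s) hy
    rw [← add_assoc, h2, zero_add]
    exact hs
  calc L.card + A.card = L.card + (A.image (fun x => x + s)).card := by
        rw [Finset.card_image_of_injective _ hinj]
    _ = (L ∪ A.image (fun x => x + s)).card := (Finset.card_union_of_disjoint hdis).symm
    _ ≤ Fintype.card P := Finset.card_le_univ _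

end Pool.Agent.CubeLike
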