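import Pool.Agent.Helper927.Cube.A7
import Pool.Agent.Helper927.Cube.K17
import Pool.Agent.Helper927.Cube.KAP
set_option autoImplicit false
set_option maxHeartbeats 4000000
set_option maxRecDepth 1000000

namespace Pool.Agent.CubeLike

open Finset

theorem alpha_g25 (A : Finset (XN 5)) (hA : Ind (farSet 5 g25) A) : A.card ≤ 5 :=
  alpha_of_go 5 5 2 g25 [0, 1, 4, 5] [
   [2, 3, 6, 7], [26, 27, 30, 31], [10, 11, 14, 15], [24, 25, 28, 29], [8, 9, 12, 13],
   [16, 17, 20, 21], [18, 19, 22, 23]]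
    (by decide +kernel) (by decide +kernel) (by decide +kernel) (by decide) (by decide +kernel)
    (by decide) A hA

theorem kappa_ge2 {P : Type} [AddCommGroup P] [Fintype P] [DecidableEq P] (h2 : ∀ x : P, x + x = 0)
    (F : Finset P) (c k2 : ℕ) (hc : ∀ A : Finset P, Ind F A → A.card ≤ c)
    (hd : ∀ d : P, d ≠ 0 → d ∉ F → (univ.filter (fun y => y ∉ F ∧ y + d ∉ F)).card ≤ k2)
    (A L : Finset P) (h : 2 ≤ A.card) (hA : Ind F A) (hL : ∀ x ∈ A, ∀ y ∈ L, x + y ∉ F) :
    L.card + A.card ≤ k2 + c := by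
  obtain ⟨a, ha, a', ha', hne'⟩ := Finset.one_lt_card.1 h
  have hd0 : a + a' ≠ 0 := by
    intro h0
    apply hne'
    calc a = a + (a' + a') := by rw [h2, add_zero]
      _ = (a + a') + a' := by rw [add_assoc]
      _ = a' := by rw [h0, zero_add]
  have hdF : a + a' ∉ F := hA a ha a' ha'
  have h3 := hd (a + a') hd0 hdF
  have h4 : (L.image (fun y => a + y)).card = L.card :=
    Finset.card_image_of_injective _ (add_right_injective a)
  have h5 : L.image (fun y => a + y) ⊆ univ.filter (fun y => y ∉ F ∧ y + (a + a') ∉ F) := by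
    intro z hz
    obtain ⟨y, hy, rfl⟩ := Finset.mem_image.1 hz
    rw [Finset.mem_filter]
    refine ⟨Finset.mem_univ _, hL a ha y hy, ?_⟩
    have e : a + y + (a + a') = a' + y := by
      have : a + y + (a + a') = (a + a) + (a' + y) := by abel
      rw [this, h2, zero_add]
    rw [e]
    exact hL a' ha' y hy
  have h6 := Finset.card_le_card h5
  have h7 := hc A hA
  omega

theorem kappa_g32 (A L : Finset (XN 5)) (hne : A.Nonempty) (hA : Ind (farSet 5 g32) A)
    (hL : ∀ x ∈ A, ∀ y ∈ L, x + y ∉ farSet 5 g32) : L.card + A.card ≤ 17 :=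
  kappa_two XN.add_self (farSet 5 g32) 6 16 10 alpha_g32 (by decide +kernel) (by decide +kernel)
    A L hne hA hL

theorem kappa_triv (n : ℕ) (gens : List ℕ) (hF : (farSet n gens).Nonempty) (A L : Finset (XN n))
    (_ : A.Nonempty) (hA : Ind (farSet n gens) A) (hL : ∀ x ∈ A, ∀ y ∈ L, x + y ∉ farSet n gens) :
    L.card + A.card ≤ 2 ^ n := by
  have := kappa_card XN.add_self (farSet n gens) hF A L hA hL
  rwa [XN.card] at this

theorem card_zero_le (A : Finset (XN 0)) : A.card ≤ 1 := by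
  have := Finset.card_le_univ A
  rwa [XN.card] at this

/-- Pattern for the first family. -/
def pt1 (y : XN 2) : Pattern (XN 0) 7 :=
  if y.1 = 0 then pk10 else if y.1 = 1 then pk11 else if y.1 = 2 then pk12 else pk13

/-- Pattern for the second family. -/
def pt3 (y : XN 2) : Pattern (XN 0) 5 :=
  if y.1 = 0 then pk30 else if y.1 = 1 then pk31 else if y.1 = 2 then pk32 else pk33

/-- Pattern for the fourth family. -/
def ptcl (y : XN 1) : Pattern (XN 4) 9 := if y.1 = 0 then pcla else pclb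

/-- Pattern for the fifth family. -/
def pt64 (y : XN 2) : Pattern (XN 6) 7 :=
  if y.1 = 0 then p640 else if y.1 = 1 then p641 else if y.1 = 2 then p642 else p643

/-- Pattern for 45. -/
def pt45 (y : XN 1) : Pattern (XN 6) 7 := if y.1 = 0 then p450 else p451

/-- Pattern for 67. -/
def pt67 (y : XN 1) : Pattern (XN 6) 5 := if y.1 = 0 then p670 else p671

theorem f1 (t b : ℕ) (h1 : 2 ^ t + 2 ≤ b) (h2 : b ≤ 2 * 2 ^ t) (hb : Att b) : Att (4 * b - 1) := by
  have hq : 1 ≤ 2 ^ t := Nat.one_le_two_pow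
  refine fam 0 7 2 1 2 2 t b (4 * b - 1) 1 [] (by decide) (sides 7 112 76) pt1 ?_
    (by decide +kernel) (fun A _ => card_zero_le A)
    (fun A L _ _ _ => Nat.add_le_add (card_zero_le L) (card_zero_le A)) ?_ ?_ ?_ ?_ ?_ hb
  · intro y
    unfold pt1
    split_ifs
    · exact pk10_good
    · exact pk11_good
    · exact pk12_good
    · exact pk13_good
  · generalize 2 ^ t = q at *
    omega
  · omega
  · omega
  · omega
  · obtain ⟨c, rfl⟩ : ∃ c, b = c + 1 := ⟨b - 1, by omega⟩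
    have e : 4 * (c + 1) - 1 - 1 = 4 * c + 2 := by omega
    rw [e]
    generalize 2 ^ t = q at *
    nlinarith

theorem f2 (t b : ℕ) (h1 : 3 * 2 ^ t + 2 ≤ b) (h2 : b ≤ 4 * 2 ^ t) (hb : Att b) :
    Att (4 * b - 3) := by
  have hq : 1 ≤ 2 ^ t := Nat.one_le_two_pow
  refine fam 0 5 2 1 2 2 t b (4 * b - 3) 3 [] (by decide) (sides 5 24 20) pt3 ?_
    (by decide +kernel) (fun A _ => card_zero_le A)
    (fun A L _ _ _ => Nat.add_le_add (card_zero_le L) (card_zero_le A)) ?_ ?_ ?_ ?_ ?_ hb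
  · intro y
    unfold pt3
    split_ifs
    · exact pk30_good
    · exact pk31_good
    · exact pk32_good
    · exact pk33_good
  · generalize 2 ^ t = q at *
    omega
  · omega
  · omega
  · omega
  · obtain ⟨c, rfl⟩ : ∃ c, b = c + 1 := ⟨b - 1, by omega⟩
    have e : 4 * (c + 1) - 3 - 1 = 4 * c := by omega
    rw [e]
    generalize 2 ^ t = q at *
    nlinarith

theorem f3 (t b : ℕ) (h1 : 4 * 2 ^ t + 2 ≤ b) (h2 : 6 * b < 32 * 2 ^ t + 6) (hb : Att b) :
    Att (4 * b - 3) := by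
  have hq : 1 ≤ 2 ^ t := Nat.one_le_two_pow
  refine fam 5 5 2 6 17 0 t b (4 * b - 3) 4 g32 (by decide) (sides 5 24 20) (fun _ => p32a)
    (fun _ => p32a_good) (by decide +kernel) alpha_g32 kappa_g32 ?_ ?_ ?_ ?_ ?_ hb
  · generalize 2 ^ t = q at *
    omega
  · omega
  · omega
  · omega
  · obtain ⟨c, rfl⟩ : ∃ c, b = c + 1 := ⟨b - 1, by omega⟩
    have e : 4 * (c + 1) - 3 - 1 = 4 * c := by omega
    rw [e]
    generalize 2 ^ t = q at *
    nlinarith

theorem f4 (t b : ℕ) (h1 : 5 * 2 ^ t + 3 ≤ b) (h2 : 5 * b < 32 * 2 ^ t + 5) (hb : Att b) :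
    Att (4 * b - 3) := by
  have hq : 1 ≤ 2 ^ t := Nat.one_le_two_pow
  refine fam 4 9 3 5 (2 ^ 4) 1 t b (4 * b - 3) 5 gcl (by decide) (sides 9 480 408) ptcl ?_
    (by decide +kernel) alpha_gcl (kappa_triv 4 gcl (by decide +kernel)) ?_ ?_ ?_ ?_ ?_ hb
  · intro y
    unfold ptcl
    split_ifs
    · exact pcla_good
    · exact pclb_good
  · generalize 2 ^ t = q at *
    omega
  · omega
  · omega
  · omega
  · obtain ⟨c, rfl⟩ : ∃ c, b = c + 1 := ⟨b - 1, by omega⟩
    have e : 4 * (c + 1) - 3 - 1 = 4 * c := by omega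
    rw [e]
    generalize 2 ^ t = q at *
    nlinarith

theorem f5 (t b : ℕ) (h1 : 31 * 2 ^ t + 3 ≤ b) (h2 : 22 * b < 768 * 2 ^ t + 33) (hb : Att b) :
    Att (4 * b - 5) := by
  have hq : 1 ≤ 2 ^ t := Nat.one_le_two_pow
  refine fam 6 7 3 11 (2 ^ 6) 2 t b (4 * b - 5) 31 g64 (by decide) (sides 7 112 76) pt64 ?_
    (by decide +kernel) alpha_g64 (kappa_triv 6 g64 (by decide +kernel)) ?_ ?_ ?_ ?_ ?_ hb
  · intro y
    unfold pt64
    split_ifs
    · exact p640_good
    · exact p641_good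
    · exact p642_good
    · exact p643_good
  · generalize 2 ^ t = q at *
    omega
  · omega
  · omega
  · omega
  · obtain ⟨c, rfl⟩ : ∃ c, b = c + 2 := ⟨b - 2, by omega⟩
    have e : 4 * (c + 2) - 5 - 1 = 4 * c + 2 := by omega
    rw [e]
    generalize 2 ^ t = q at *
    nlinarith

theorem f6 (t b : ℕ) (h1 : 8 * 2 ^ t + 2 ≤ b) (h2 : 24 * b < 224 * 2 ^ t + 42) (hb : Att b) :
    Att (4 * b - 6) := by
  have hq : 1 ≤ 2 ^ t := Nat.one_le_two_pow
  refine fam 5 2 2 6 17 0 t b (4 * b - 6) 8 g32 (by decide) (sides 2 2 2) (fun _ => p32b)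
    (fun _ => p32b_good) (by decide +kernel) alpha_g32 kappa_g32 ?_ ?_ ?_ ?_ ?_ hb
  · generalize 2 ^ t = q at *
    omega
  · omega
  · omega
  · omega
  · obtain ⟨c, rfl⟩ : ∃ c, b = c + 2 := ⟨b - 2, by omega⟩
    have e : 4 * (c + 2) - 6 - 1 = 4 * c + 1 := by omega
    rw [e]
    generalize 2 ^ t = q at *
    nlinarith

theorem att_45_of (hb : Att 12) : Att 45 := by
  refine famG 6 7 11 (2 ^ 6) 1 12 45 (sel 2 3 3 2) g64 (by decide) (sides 7 120 100) pt45 ?_
    (by decide +kernel) alpha_g64 (kappa_triv 6 g64 (by decide +kernel)) (by decide)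
    (by decide) (by decide +kernel) (by decide +kernel) hb
  intro y
  unfold pt45
  split_ifs
  · exact p450_good
  · exact p451_good

theorem att_67_of (hb : Att 18) : Att 67 := by
  refine famG 6 5 11 (2 ^ 6) 1 18 67 (sel 3 2 2 3) g64 (by decide) (sides 5 24 22) pt67 ?_
    (by decide +kernel) alpha_g64 (kappa_triv 6 g64 (by decide +kernel)) (by decide)
    (by decide) (by decide +kernel) (by decide +kernel) hb
  intro y
  unfold pt67
  split_ifs
  · exact p670_good
  · exact p671_good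

theorem hd25 : ∀ d : XN 5, d ≠ 0 → d ∉ farSet 5 g25 →
    (univ.filter (fun y => y ∉ farSet 5 g25 ∧ y + d ∉ farSet 5 g25)).card ≤ 12 := by
  decide +kernel

theorem att_25_of (hb : Att 7) : Att 25 := by
  refine fam_zero 5 5 2 5 20 17 7 25 g25 (by decide) (sides 5 24 6) p25 p25_good
    (by decide +kernel) (by decide) alpha_g25 ?_ ?_ (by decide) (by decide) (by decide)
    (by decide) (by decide) hb
  · intro A L h hA hL
    have := kappa_two XN.add_self (farSet 5 g25) 5 19 12 alpha_g25 (by decide +kernel) hd25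
      A L (Finset.card_pos.1 (by omega)) hA hL
    exact this
  · intro A L h hA hL
    exact kappa_ge2 XN.add_self (farSet 5 g25) 5 12 alpha_g25 hd25 A L h hA hL

end Pool.Agent.CubeLike
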