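import Pool.Agent.Helper927.Cube.Defs
set_option autoImplicit false
set_option maxHeartbeats 4000000

namespace Pool.Agent.CubeLike

open Finset

/-! ### AVAILABLE: statements you may use; leave these `sorry`s in place (they are proved in other jobs) -/



/-! ### TARGET: replace the `sorry`s below by proofs (auxiliary lemmas are fine, put them in this file) -/


theorem ago_testBit_foldl (v w : ℕ) (l : List ℕ) (a : ℕ) :
    (l.foldl (fun a s => a ||| 2 ^ (v ^^^ s)) a).testBit w = true ↔
      a.testBit w = true ∨ ∃ s ∈ l, v ^^^ s = w := by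
  induction l generalizing a with
  | nil => simp
  | cons s l ih =>
    rw [List.foldl_cons, ih, Nat.testBit_or, Bool.or_eq_true, Nat.testBit_two_pow,
      decide_eq_true_iff]
    simp only [List.mem_cons, exists_eq_or_imp]
    tauto

theorem ago_testBit_nbr (gens : List ℕ) (v w : ℕ) :
    (nbr gens v).testBit w = true ↔ v ^^^ w ∈ gens := by
  rw [nbr, ago_testBit_foldl]
  simp only [Nat.zero_testBit, Bool.false_eq_true, false_or]
  constructor
  · rintro ⟨s, hs, rfl⟩
    rwa [← Nat.xor_assoc, Nat.xor_self, Nat.zero_xor]
  · intro h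
    exact ⟨_, h, by rw [← Nat.xor_assoc, Nat.xor_self, Nat.zero_xor]⟩

theorem ago_go_sound (gens : List ℕ) (p : ℕ → Bool)
    (hp : ∀ v w, p v = true → p w = true → v ^^^ w ∉ gens) :
    ∀ (cs : List (List ℕ)) (forb sk : ℕ), go gens cs forb sk = true →
      (∀ v, p v = true → forb.testBit v = false) →
      cs.countP (fun c => c.any p) + sk < cs.length := by
  intro cs
  induction cs with
  | nil => intro forb sk h; simp [go] at h
  | cons c cs ih =>
    intro forb sk h hf
    rw [go, Bool.and_eq_true, List.all_eq_true] at h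
    obtain ⟨h1, h2⟩ := h
    have hle : cs.countP (fun c => c.any p) ≤ cs.length := List.countP_le_length
    by_cases hc : c.any p = true
    · rw [List.countP_cons_of_pos (p := fun c : List ℕ => c.any p) hc, List.length_cons]
      obtain ⟨v, hv, hpv⟩ := List.any_eq_true.1 hc
      have h3 := h1 v hv
      rw [hf v hpv, Bool.false_or] at h3
      have := ih _ sk h3 (fun w hw => by
        rw [Nat.testBit_or, hf w hw, Bool.false_or]
        by_contra hcon
        rw [Bool.not_eq_false, ago_testBit_nbr] at hcon
        exact hp v w hpv hw hcon)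
      omega
    · rw [List.countP_cons_of_neg (p := fun c : List ℕ => c.any p) hc, List.length_cons]
      rw [Bool.or_eq_true, beq_iff_eq] at h2
      rcases h2 with h2 | h2
      · omega
      · have := ih _ _ h2 hf
        omega

theorem ago_countP_block (gens : List ℕ) (p : ℕ → Bool)
    (hp : ∀ v w, p v = true → p w = true → v ^^^ w ∉ gens) (c : List ℕ)
    (hc : c.Pairwise (fun a b => a ^^^ b ∈ gens)) :
    c.countP p ≤ if c.any p = true then 1 else 0 := by
  induction c with
  | nil => simp
  | cons a c ih =>
    rw [List.pairwise_cons] at hc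
    have ih' := ih hc.2
    by_cases ha : p a = true
    · have : c.countP p = 0 := by
        rw [List.countP_eq_zero]
        intro b hb hpb
        exact hp a b ha hpb (hc.1 b hb)
      rw [List.countP_cons_of_pos ha, this]
      simp [ha]
    · rw [List.countP_cons_of_neg ha]
      simpa [ha] using ih'

theorem ago_countP_blocks (gens : List ℕ) (p : ℕ → Bool)
    (hp : ∀ v w, p v = true → p w = true → v ^^^ w ∉ gens) (cs : List (List ℕ))
    (hcl : ∀ l ∈ cs, l.Pairwise (fun a b => a ^^^ b ∈ gens)) :
    cs.flatten.countP p ≤ cs.countP (fun c => c.any p) := by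
  induction cs with
  | nil => simp
  | cons c cs ih =>
    have h1 := ago_countP_block gens p hp c (hcl c (by simp))
    have h2 := ih (fun l hl => hcl l (by simp [hl]))
    rw [List.flatten_cons, List.countP_append]
    by_cases hc : c.any p = true
    · rw [List.countP_cons_of_pos (p := fun c : List ℕ => c.any p) hc]
      rw [if_pos hc] at h1
      omega
    · rw [List.countP_cons_of_neg (p := fun c : List ℕ => c.any p) hc]
      rw [if_neg hc] at h1
      omega

theorem ago_card (m : ℕ) (p : ℕ → Bool) :
    ((Finset.range m).filter (fun v => p v = true)).card = (List.range m).countP p := by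
  induction m with
  | zero => simp
  | succ m ih =>
    rw [Finset.range_add_one, Finset.filter_insert, List.range_succ, List.countP_append, ← ih]
    by_cases h : p m = true
    · rw [if_pos h, Finset.card_insert_of_notMem (by simp)]
      simp [h]
    · rw [if_neg h]
      simp [h]

theorem alpha_of_go (n c sk : ℕ) (gens : List ℕ) (c0 : List ℕ) (cs : List (List ℕ))
    (hlt : ∀ g ∈ gens, g < 2 ^ n)
    (hperm : (List.range (2 ^ n)).Perm (c0 ++ cs.flatten))
    (hcl : ∀ l ∈ c0 :: cs, l.Pairwise (fun a b => a ^^^ b ∈ gens))
    (h0 : 0 ∈ c0) (hgo : go gens cs (nbr gens 0) sk = true) (hlen : cs.length ≤ c + sk)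
    (A : Finset (XN n)) (hA : Ind (farSet n gens) A) : A.card ≤ c := by
  classical
  rcases A.eq_empty_or_nonempty with rfl | ⟨a0, ha0⟩
  · simp
  · obtain ⟨B, hBdef⟩ : ∃ B : Finset (XN n), B = A.image (fun x => x + a0) := ⟨_, rfl⟩
    have hBcard : B.card = A.card := by
      rw [hBdef]
      exact Finset.card_image_of_injective _ (add_left_injective a0)
    have hB0 : (0 : XN n) ∈ B := by
      rw [hBdef]
      exact Finset.mem_image.2 ⟨a0, ha0, XN.add_self a0⟩
    have hB : ∀ x ∈ B, ∀ y ∈ B, x + y ∉ farSet n gens := by
      intro x hx y hy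
      rw [hBdef] at hx hy
      obtain ⟨x', hx', rfl⟩ := Finset.mem_image.1 hx
      obtain ⟨y', hy', rfl⟩ := Finset.mem_image.1 hy
      have : x' + a0 + (y' + a0) = x' + y' := by
        have e : x' + a0 + (y' + a0) = x' + y' + (a0 + a0) := by abel
        rw [e, XN.add_self, add_zero]
      rw [this]
      exact hA x' hx' y' hy'
    rw [← hBcard]
    obtain ⟨p, hpdef⟩ : ∃ p : ℕ → Bool, ∀ v, p v = true ↔ ∃ x ∈ B, x.1 = v :=
      ⟨fun v => decide (∃ x ∈ B, x.1 = v), fun v => by simp⟩
    have hp : ∀ v w, p v = true → p w = true → v ^^^ w ∉ gens := by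
      intro v w hv hw hg
      obtain ⟨x, hx, rfl⟩ := (hpdef v).1 hv
      obtain ⟨y, hy, rfl⟩ := (hpdef w).1 hw
      apply hB x hx y hy
      rw [farSet, Finset.mem_filter]
      exact ⟨Finset.mem_univ _, by rw [XN.add_val]; exact hg⟩
    have hcount : B.card = (List.range (2 ^ n)).countP p := by
      rw [← ago_card]
      have hinj : Function.Injective (fun x : XN n => x.1) := fun x y h => Fin.ext h
      rw [← Finset.card_image_of_injective B hinj]
      congr 1
      ext v
      rw [Finset.mem_image, Finset.mem_filter, Finset.mem_range, hpdef]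
      constructor
      · rintro ⟨x, hx, rfl⟩
        exact ⟨x.2, x, hx, rfl⟩
      · rintro ⟨_, x, hx, rfl⟩
        exact ⟨x, hx, rfl⟩
    rw [hcount, hperm.countP_eq, List.countP_append]
    have h1 := ago_countP_block gens p hp c0 (hcl c0 (by simp))
    have h1' : c0.countP p ≤ 1 := h1.trans (by split_ifs <;> simp)
    have h2 := ago_countP_blocks gens p hp cs (fun l hl => hcl l (by simp [hl]))
    have h3 := ago_go_sound gens p hp cs (nbr gens 0) sk hgo (fun v hv => by
      by_contra hcon
      rw [Bool.not_eq_false, ago_testBit_nbr] at hcon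
      exact hp 0 v ((hpdef 0).2 ⟨0, hB0, rfl⟩) hv hcon)
    omega

end Pool.Agent.CubeLike
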