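import Pool.Agent.Helper927.Cube.Defs
import Pool.Agent.Helper927.Cube.LEX
import Pool.Agent.Helper927.Cube.TR
set_option autoImplicit false
set_option maxHeartbeats 4000000

namespace Pool.Agent.CubeLike

open Finset

/-! ### TARGET: replace the `sorry`s below by proofs (auxiliary lemmas are fine, put them in this file) -/

theorem zmod2_adj_753 (x y : ZMod 2) (h : x ≠ y) : (cay ({1} : Set (ZMod 2))).Adj x y := by
  have h1 : ∀ a b : ZMod 2, a ≠ b → a + b = 1 := by decide
  exact (SimpleGraph.fromRel_adj _ _ _).2 ⟨h, Or.inl (h1 x y h)⟩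

theorem att_one : Att 1 := by
  refine att_of_colorable (V := Fin 0 → ZMod 2) (fun x => Subsingleton.elim _ _) ∅ 1 one_pos ?_ ?_
  · exact ⟨SimpleGraph.Coloring.mk (fun _ => (0 : Fin 1))
      (fun {v w} h => absurd (Subsingleton.elim v w) h.ne)⟩
  · rintro ⟨C⟩
    exact (C (fun _ => 0)).elim0

theorem att_two : Att 2 := by
  have h2 : ∀ x : ZMod 2, x + x = 0 := by decide
  refine att_of_colorable (V := ZMod 2) h2 {1} 2 two_pos ?_ ?_
  · exact ⟨SimpleGraph.Coloring.mk (fun x : ZMod 2 => (x : Fin 2)) (fun {v w} h => h.ne)⟩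
  · rintro ⟨C⟩
    have h1 := C.valid (zmod2_adj_753 0 1 (by decide))
    exact h1 (Subsingleton.elim (α := Fin 1) _ _)

theorem att_double (b : ℕ) (hb : Att b) : Att (2 * b) := by
  have hb0 := hb.exists_colorable.1
  have h2 : ∀ x : ZMod 2, x + x = 0 := by decide
  refine lex (V := ZMod 2) h2 {1} b (2 * b) 1 (by omega)
    (fun i => if i.1 < b then {0} else {1}) ?_ ?_ ?_ ?_ hb
  · intro i x hx y hy hadj
    apply hadj.ne
    split_ifs at hx hy
    · rw [Finset.mem_singleton.1 hx, Finset.mem_singleton.1 hy]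
    · rw [Finset.mem_singleton.1 hx, Finset.mem_singleton.1 hy]
  · have h01 : ∀ x : ZMod 2, x = 0 ∨ x = 1 := by decide
    intro x
    rcases h01 x with rfl | rfl
    · have h3 : (Finset.univ.map ⟨fun i : Fin b => (⟨i.1, by omega⟩ : Fin (2 * b)),
          fun i j h => Fin.ext (Fin.mk.inj_iff.1 h)⟩).card = b := by
        rw [Finset.card_map, Finset.card_univ, Fintype.card_fin]
      refine h3.symm.le.trans (Finset.card_le_card ?_)
      intro j hj
      obtain ⟨i, _, rfl⟩ := Finset.mem_map.1 hj
      simp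
    · have h3 : (Finset.univ.map ⟨fun i : Fin b => (⟨b + i.1, by omega⟩ : Fin (2 * b)),
          fun i j h => Fin.ext (by have := Fin.mk.inj_iff.1 h; omega)⟩).card = b := by
        rw [Finset.card_map, Finset.card_univ, Fintype.card_fin]
      refine h3.symm.le.trans (Finset.card_le_card ?_)
      intro j hj
      obtain ⟨i, _, rfl⟩ := Finset.mem_map.1 hj
      simp
  · intro J hJ
    rw [Finset.card_le_one]
    intro x hx y hy
    by_contra hne
    exact hJ x hx y hy (zmod2_adj_753 x y hne)
  · rw [ZMod.card]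
    omega

end Pool.Agent.CubeLike
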