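import Pool.Agent.Helper927.Cube.Defs
set_option autoImplicit false
set_option maxHeartbeats 4000000

namespace Pool.Agent.CubeLike

open Finset

/-! ### TARGET: replace the `sorry`s below by proofs (auxiliary lemmas are fine, put them in this file) -/

theorem bbx_foldl (v w : ℕ) (l : List ℕ) (a : ℕ) :
    (l.foldl (fun a s => a ||| 2 ^ (v ^^^ s)) a).testBit w = true ↔
      a.testBit w = true ∨ ∃ s ∈ l, v ^^^ s = w := by
  induction l generalizing a with
  | nil => simp
  | cons s l ih =>
    rw [List.foldl_cons, ih, Nat.testBit_or, Bool.or_eq_true, Nat.testBit_two_pow, decide_eq_true_iff]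
    simp only [List.mem_cons, exists_eq_or_imp]
    tauto

theorem bbx_nbr (gens : List ℕ) (v w : ℕ) :
    (nbr gens v).testBit w = true ↔ v ^^^ w ∈ gens := by
  unfold nbr
  rw [bbx_foldl]
  constructor
  · rintro (h | ⟨s, hs, rfl⟩)
    · simp at h
    · rw [← Nat.xor_assoc, Nat.xor_self, Nat.zero_xor]
      exact hs
  · intro h
    refine Or.inr ⟨v ^^^ w, h, ?_⟩
    rw [← Nat.xor_assoc, Nat.xor_self, Nat.zero_xor]

theorem bbx_del (m v x : ℕ) (hv : m.testBit v = true) :
    (m ^^^ 2 ^ v).testBit x = true ↔ m.testBit x = true ∧ x ≠ v := by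
  rw [Nat.testBit_xor, Nat.testBit_two_pow]
  by_cases h : v = x
  · subst h
    simp [hv]
  · have h' : x ≠ v := fun e => h e.symm
    simp [h, h']

theorem bbx_minus (m t x : ℕ) :
    (m ^^^ (m &&& t)).testBit x = true ↔ m.testBit x = true ∧ ¬ t.testBit x = true := by
  rw [Nat.testBit_xor, Nat.testBit_and]
  cases m.testBit x <;> cases t.testBit x <;> simp

theorem bbx_sub (T : Tree) (d : ℕ) : ∀ (fuel rest q k : ℕ),
    (∀ x, q.testBit x = true → rest.testBit x = true) →
    ∀ x, (peel T d fuel rest q k).testBit x = true → rest.testBit x = true := by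
  intro fuel
  induction fuel with
  | zero =>
    intro rest q k _ x hx
    rw [peel] at hx
    exact hx
  | succ fuel ih =>
    intro rest q k hq x hx
    by_cases hq0 : q = 0
    · subst hq0
      by_cases hr : rest = 0
      · subst hr
        simp [peel] at hx
      · cases k with
        | zero =>
          simp [peel, hr] at hx
          exact hx
        | succ k =>
          simp only [peel, beq_self_eq_true, if_true, beq_iff_eq, hr, if_false] at hx
          exact ih rest rest k (fun _ h => h) x hx
    · have hv : q.testBit q.log2 = true := Nat.testBit_log2 hq0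
      simp only [peel, beq_iff_eq, hq0, if_false] at hx
      have h1 := ih _ _ _ ?_ x hx
      · exact ((bbx_del rest q.log2 x (hq _ hv)).1 h1).1
      · intro y hy
        rw [Nat.testBit_and, Bool.and_eq_true, bbx_del q q.log2 y hv] at hy
        rw [bbx_del rest q.log2 y (hq _ hv)]
        exact ⟨hq _ hy.1.1, hy.1.2⟩

theorem bbx_peel (T : Tree) (d N : ℕ) (G : ℕ → ℕ → Prop) (hsymm : ∀ x y, G x y → G y x)
    (hG : ∀ v, v < N → ∀ w, (T.get d v).testBit w = true ↔ G v w) :
    ∀ (fuel rest q k : ℕ) (K : Finset ℕ),
    (∀ x, q.testBit x = true → rest.testBit x = true) →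
    (∀ x, rest.testBit x = true → x < N) →
    (∀ x ∈ K, ∀ y ∈ K, x ≠ y → G x y) → (∀ x ∈ K, ¬ rest.testBit x = true) →
    (∀ x, q.testBit x = true → ∀ y ∈ K, G y x) →
    ∀ I : Finset ℕ, (∀ x ∈ I, ∀ y ∈ I, ¬ G x y) →
    (I.filter (fun v => rest.testBit v = true ∧ ¬ (peel T d fuel rest q k).testBit v = true)).card +
        (I ∩ K).card ≤ k + 1 ∧
      (q = 0 → K = ∅ →
        (I.filter (fun v => rest.testBit v = true ∧
          ¬ (peel T d fuel rest q k).testBit v = true)).card + (I ∩ K).card ≤ k) := by
  intro fuel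
  have hIK : ∀ (K I : Finset ℕ), (∀ x ∈ K, ∀ y ∈ K, x ≠ y → G x y) →
      (∀ x ∈ I, ∀ y ∈ I, ¬ G x y) → (I ∩ K).card ≤ 1 := by
    intro K I hK hI
    rw [Finset.card_le_one]
    intro a ha b hb
    rw [Finset.mem_inter] at ha hb
    by_contra hne
    exact hI a ha.1 b hb.1 (hK a ha.2 b hb.2 hne)
  have hfe : ∀ (I : Finset ℕ) (rest : ℕ),
      I.filter (fun v => rest.testBit v = true ∧ ¬ rest.testBit v = true) = ∅ := by
    intro I rest
    rw [Finset.filter_eq_empty_iff]
    intro v _ h
    exact h.2 h.1
  induction fuel with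
  | zero =>
    intro rest q k K hq hN hK hKr hqK I hI
    have h1 := hIK K I hK hI
    rw [peel, hfe, Finset.card_empty]
    refine ⟨by omega, fun _ hK0 => ?_⟩
    subst hK0
    simp
  | succ fuel ih =>
    intro rest q k K hq hN hK hKr hqK I hI
    have h1 := hIK K I hK hI
    by_cases hq0 : q = 0
    · subst hq0
      by_cases hr : rest = 0
      · subst hr
        have h2 : I.filter (fun v => (0 : ℕ).testBit v = true ∧
            ¬ (peel T d (fuel + 1) 0 0 k).testBit v = true) = ∅ := by
          rw [Finset.filter_eq_empty_iff]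
          intro v _ h
          simp at h
        rw [h2, Finset.card_empty]
        refine ⟨by omega, fun _ hK0 => ?_⟩
        subst hK0
        simp
      · cases k with
        | zero =>
          have h3 : peel T d (fuel + 1) rest 0 0 = rest := by
            simp [peel, hr]
          rw [h3, hfe, Finset.card_empty]
          refine ⟨by omega, fun _ hK0 => ?_⟩
          subst hK0
          simp
        | succ k =>
          have h3 : peel T d (fuel + 1) rest 0 (k + 1) = peel T d fuel rest rest k := by
            simp only [peel, beq_self_eq_true, if_true, beq_iff_eq, hr, if_false]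
          rw [h3]
          have h4 := (ih rest rest k ∅ (fun _ h => h) hN (by simp) (by simp) (by simp) I hI).1
          rw [Finset.inter_empty, Finset.card_empty, add_zero] at h4
          refine ⟨by omega, fun _ hK0 => ?_⟩
          subst hK0
          rw [Finset.inter_empty, Finset.card_empty]
          omega
    · have hv : q.testBit q.log2 = true := Nat.testBit_log2 hq0
      have hrv : rest.testBit q.log2 = true := hq _ hv
      have hvN : q.log2 < N := hN _ hrv
      have hvK : q.log2 ∉ K := fun h => hKr _ h hrv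
      have h3 : peel T d (fuel + 1) rest q k =
          peel T d fuel (rest ^^^ 2 ^ q.log2) ((q ^^^ 2 ^ q.log2) &&& T.get d q.log2) k := by
        simp only [peel, beq_iff_eq, hq0, if_false]
      have hsubq : ∀ x, ((q ^^^ 2 ^ q.log2) &&& T.get d q.log2).testBit x = true →
          (rest ^^^ 2 ^ q.log2).testBit x = true := by
        intro y hy
        rw [Nat.testBit_and, Bool.and_eq_true, bbx_del q q.log2 y hv] at hy
        rw [bbx_del rest q.log2 y hrv]
        exact ⟨hq _ hy.1.1, hy.1.2⟩
      have h4 := (ih (rest ^^^ 2 ^ q.log2) ((q ^^^ 2 ^ q.log2) &&& T.get d q.log2) k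
        (insert q.log2 K) hsubq
        (fun x hx => hN x ((bbx_del rest q.log2 x hrv).1 hx).1)
        (by
          intro x hx y hy hxy
          rw [Finset.mem_insert] at hx hy
          rcases hx with rfl | hx
          · rcases hy with rfl | hy
            · exact absurd rfl hxy
            · exact hsymm _ _ (hqK _ hv y hy)
          · rcases hy with rfl | hy
            · exact hqK _ hv x hx
            · exact hK x hx y hy hxy)
        (by
          intro x hx h
          rw [bbx_del rest q.log2 x hrv] at h
          rw [Finset.mem_insert] at hx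
          rcases hx with hx | hx
          · exact h.2 hx
          · exact hKr x hx h.1)
        (by
          intro x hx y hy
          rw [Nat.testBit_and, Bool.and_eq_true, bbx_del q q.log2 x hv, hG _ hvN] at hx
          rw [Finset.mem_insert] at hy
          rcases hy with rfl | hy
          · exact hx.2
          · exact hqK x hx.1.1 y hy)
        I hI).1
      refine ⟨?_, fun h => absurd h hq0⟩
      rw [h3]
      set R := peel T d fuel (rest ^^^ 2 ^ q.log2) ((q ^^^ 2 ^ q.log2) &&& T.get d q.log2) k with hR
      have hRv : ¬ R.testBit q.log2 = true := by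
        intro h
        have h5 := bbx_sub T d fuel _ _ k hsubq _ h
        rw [bbx_del rest q.log2 _ hrv] at h5
        exact h5.2 rfl
      by_cases hvI : q.log2 ∈ I
      · have h5 : I.filter (fun v => rest.testBit v = true ∧ ¬ R.testBit v = true) =
            insert q.log2 (I.filter (fun v => (rest ^^^ 2 ^ q.log2).testBit v = true ∧
              ¬ R.testBit v = true)) := by
          ext x
          rw [Finset.mem_insert, Finset.mem_filter, Finset.mem_filter, bbx_del rest q.log2 x hrv]
          constructor
          · rintro ⟨a, b, c⟩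
            by_cases hx : x = q.log2
            · exact Or.inl hx
            · exact Or.inr ⟨a, ⟨b, hx⟩, c⟩
          · rintro (rfl | ⟨a, ⟨b, _⟩, c⟩)
            · exact ⟨hvI, hrv, hRv⟩
            · exact ⟨a, b, c⟩
        have h6 : I ∩ insert q.log2 K = insert q.log2 (I ∩ K) :=
          Finset.inter_insert_of_mem hvI
        have h7 : q.log2 ∉ I ∩ K := fun h => hvK (Finset.mem_inter.1 h).2
        have h8 : q.log2 ∉ I.filter (fun v => (rest ^^^ 2 ^ q.log2).testBit v = true ∧
            ¬ R.testBit v = true) := by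
          intro h
          rw [Finset.mem_filter, bbx_del rest q.log2 _ hrv] at h
          exact h.2.1.2 rfl
        rw [h6, Finset.card_insert_of_notMem h7] at h4
        rw [h5, Finset.card_insert_of_notMem h8]
        omega
      · have h5 : I.filter (fun v => rest.testBit v = true ∧ ¬ R.testBit v = true) =
            I.filter (fun v => (rest ^^^ 2 ^ q.log2).testBit v = true ∧ ¬ R.testBit v = true) := by
          refine Finset.filter_congr fun x hx => ?_
          rw [bbx_del rest q.log2 x hrv]
          constructor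
          · rintro ⟨b, c⟩
            exact ⟨⟨b, fun h => hvI (h ▸ hx)⟩, c⟩
          · rintro ⟨⟨b, _⟩, c⟩
            exact ⟨b, c⟩
        have h6 : I ∩ insert q.log2 K = I ∩ K := Finset.inter_insert_of_notMem hvI
        rw [h6] at h4
        rw [h5]
        exact h4

theorem bbx_main (T : Tree) (d N : ℕ) (G : ℕ → ℕ → Prop) (hsymm : ∀ x y, G x y → G y x)
    (hG : ∀ v, v < N → ∀ w, (T.get d v).testBit w = true ↔ G v w) : ∀ (fuel : ℕ),
    (∀ cand k, bb T d fuel cand k = true → (∀ x, cand.testBit x = true → x < N) →
      ∀ I : Finset ℕ, (∀ x ∈ I, ∀ y ∈ I, ¬ G x y) → (∀ x ∈ I, cand.testBit x = true) →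
        I.card < k) ∧
    (∀ cand rest k, bbs T d fuel cand rest k = true → (∀ x, cand.testBit x = true → x < N) →
      (∀ x, rest.testBit x = true → cand.testBit x = true) →
      ∀ I : Finset ℕ, (∀ x ∈ I, ∀ y ∈ I, ¬ G x y) → (∀ x ∈ I, cand.testBit x = true) →
        (∃ x ∈ I, rest.testBit x = true) → I.card < k + 1) := by
  intro fuel
  induction fuel with
  | zero =>
    constructor
    · intro cand k h
      simp [bb] at h
    · intro cand rest k h
      simp [bbs] at h
  | succ fuel ih =>
    obtain ⟨ih1, ih2⟩ := ih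
    constructor
    · intro cand k h hN I hI hIc
      cases k with
      | zero => simp [bb] at h
      | succ k =>
        rw [bb] at h
        have hsub := bbx_sub T d (2 * 2 ^ d + 2) cand 0 k (by simp)
        by_cases hne : ∃ x ∈ I, (peel T d (2 * 2 ^ d + 2) cand 0 k).testBit x = true
        · exact ih2 _ _ _ h hN hsub I hI hIc hne
        · have hp := (bbx_peel T d N G hsymm hG (2 * 2 ^ d + 2) cand 0 k ∅ (by simp) hN (by simp)
            (by simp) (by simp) I hI).2 rfl rfl
          have hfil : I.filter (fun v => cand.testBit v = true ∧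
              ¬ (peel T d (2 * 2 ^ d + 2) cand 0 k).testBit v = true) = I := by
            rw [Finset.filter_eq_self]
            intro x hx
            exact ⟨hIc x hx, fun h' => hne ⟨x, hx, h'⟩⟩
          rw [hfil] at hp
          omega
    · intro cand rest k h hN hrc I hI hIc hex
      obtain ⟨x0, hx0, hr0⟩ := hex
      have hr : rest ≠ 0 := by
        rintro rfl
        simp at hr0
      rw [bbs] at h
      simp only [beq_iff_eq, hr, if_false, Bool.and_eq_true] at h
      obtain ⟨ha, hb⟩ := h
      have hv : rest.testBit rest.log2 = true := Nat.testBit_log2 hr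
      have hcv : cand.testBit rest.log2 = true := hrc _ hv
      have hvN : rest.log2 < N := hN _ hcv
      by_cases hvI : rest.log2 ∈ I
      · have h1 := ih1 _ _ ha
          (by
            intro x hx
            rw [bbx_minus, bbx_del cand _ _ hcv] at hx
            exact hN x hx.1.1)
          (I.erase rest.log2)
          (fun x hx y hy => hI x (Finset.mem_of_mem_erase hx) y (Finset.mem_of_mem_erase hy))
          (by
            intro x hx
            rw [bbx_minus, bbx_del cand _ _ hcv, hG _ hvN]
            exact ⟨⟨hIc x (Finset.mem_of_mem_erase hx), Finset.ne_of_mem_erase hx⟩,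
              hI _ hvI x (Finset.mem_of_mem_erase hx)⟩)
        rw [Finset.card_erase_of_mem hvI] at h1
        omega
      · refine ih2 _ _ _ hb ?_ ?_ I hI ?_ ⟨x0, hx0, ?_⟩
        · intro x hx
          rw [bbx_del cand _ _ hcv] at hx
          exact hN x hx.1
        · intro x hx
          rw [bbx_del rest _ _ hv] at hx
          rw [bbx_del cand _ _ hcv]
          exact ⟨hrc x hx.1, hx.2⟩
        · intro x hx
          rw [bbx_del cand _ _ hcv]
          exact ⟨hIc x hx, fun h => hvI (h ▸ hx)⟩
        · rw [bbx_del rest _ _ hv]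
          exact ⟨hr0, fun h => hvI (h ▸ hx0)⟩

theorem alpha_of_bb (n c fuel : ℕ) (gens : List ℕ) (T : Tree)
    (hT : ((List.range (2 ^ n)).all fun v => T.get n v == nbr gens v) = true)
    (hlt : ∀ g ∈ gens, g < 2 ^ n)
    (hb : bb T n fuel ((2 ^ 2 ^ n - 1) ^^^ 1 ^^^ (((2 ^ 2 ^ n - 1) ^^^ 1) &&& T.get n 0)) c = true)
    (A : Finset (XN n)) (hA : Ind (farSet n gens) A) : A.card ≤ c := by
  rcases A.eq_empty_or_nonempty with rfl | ⟨a0, ha0⟩
  · simp
  have hG : ∀ v, v < 2 ^ n → ∀ w, (T.get n v).testBit w = true ↔ v ^^^ w ∈ gens := by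
    intro v hv w
    rw [List.all_eq_true] at hT
    have h1 := hT v (List.mem_range.2 hv)
    rw [beq_iff_eq] at h1
    rw [h1]
    exact bbx_nbr gens v w
  have hmain := (bbx_main T n (2 ^ n) (fun v w => v ^^^ w ∈ gens)
    (fun x y h => by rw [Nat.xor_comm]; exact h) hG fuel).1 _ _ hb
  have hbit : ∀ x, ((2 ^ 2 ^ n - 1) ^^^ 1).testBit x = true ↔ x < 2 ^ n ∧ x ≠ 0 := by
    intro x
    rw [Nat.testBit_xor, Nat.testBit_two_pow_sub_one]
    by_cases hx : x = 0
    · subst hx
      have h1 : (0 : ℕ) < 2 ^ n := Nat.two_pow_pos n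
      simp [h1]
    · have h2 : Nat.testBit 1 x = false := by
        rw [Bool.eq_false_iff]
        intro h
        exact hx (Nat.testBit_one_eq_true_iff_self_eq_zero.1 h)
      rw [h2]
      simp [hx]
  have hval : ∀ a b : XN n, (a + b).1 = a.1 ^^^ b.1 := fun a b => rfl
  have hnot : ∀ a ∈ A, ∀ b ∈ A, a.1 ^^^ b.1 ∉ gens := by
    intro a ha b hb h
    apply hA a ha b hb
    unfold farSet
    rw [Finset.mem_filter]
    exact ⟨Finset.mem_univ _, h⟩
  let J : Finset ℕ := A.image (fun a : XN n => a.1 ^^^ a0.1)
  have hinj : Function.Injective (fun a : XN n => a.1 ^^^ a0.1) := by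
    intro a b h
    have h1 : a.1 ^^^ a0.1 = b.1 ^^^ a0.1 := h
    have h2 : a.1 = b.1 := by
      have h3 := congrArg (fun t => t ^^^ a0.1) h1
      simpa [Nat.xor_assoc] using h3
    exact Fin.ext h2
  have hJc : J.card = A.card := Finset.card_image_of_injective _ hinj
  have h0J : 0 ∈ J := by
    rw [Finset.mem_image]
    exact ⟨a0, ha0, Nat.xor_self _⟩
  have hlt' := hmain
    (by
      intro x hx
      rw [bbx_minus, hbit] at hx
      exact hx.1.1)
    (J.erase 0)
    (by
      intro x hx y hy h
      obtain ⟨a, ha, rfl⟩ := Finset.mem_image.1 (Finset.mem_of_mem_erase hx)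
      obtain ⟨b, hb', rfl⟩ := Finset.mem_image.1 (Finset.mem_of_mem_erase hy)
      have h1 : (a.1 ^^^ a0.1) ^^^ (b.1 ^^^ a0.1) = a.1 ^^^ b.1 := by
        rw [Nat.xor_comm b.1 a0.1, Nat.xor_assoc, ← Nat.xor_assoc a0.1 a0.1 b.1, Nat.xor_self,
          Nat.zero_xor]
      have h2 : (a.1 ^^^ a0.1) ^^^ (b.1 ^^^ a0.1) ∈ gens := h
      rw [h1] at h2
      exact hnot a ha b hb' h2)
    (by
      intro x hx
      have hx0 := Finset.ne_of_mem_erase hx
      obtain ⟨a, ha, rfl⟩ := Finset.mem_image.1 (Finset.mem_of_mem_erase hx)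
      rw [bbx_minus, hbit, hG 0 (Nat.two_pow_pos n), Nat.zero_xor]
      exact ⟨⟨Nat.xor_lt_two_pow a.2 a0.2, hx0⟩, hnot a ha a0 ha0⟩)
  rw [Finset.card_erase_of_mem h0J, hJc] at hlt'
  have hpos : 0 < A.card := Finset.card_pos.2 ⟨a0, ha0⟩
  omega

end Pool.Agent.CubeLike
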