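import Pool.Agent.Helper927.Cube.Defs
set_option autoImplicit false
set_option maxHeartbeats 4000000

namespace Pool.Agent.CubeLike

open Finset

/-! ### AVAILABLE: statements you may use; leave these `sorry`s in place (they are proved in other jobs) -/



/-! ### TARGET: replace the `sorry`s below by proofs (auxiliary lemmas are fine, put them in this file) -/

theorem farProd_bounds_sum {P Y : Type} [AddCommGroup P] [Fintype P] [DecidableEq P]
    [AddCommGroup Y] [Fintype Y] [DecidableEq Y] (h2 : ∀ y : Y, y + y = 0)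
    (F : Finset P) (x y : P × Y) (h : x + y ∉ farProd F) : x.2 = y.2 ∧ x.1 + y.1 ∉ F := by
  have h1 : ¬ ((x + y).2 ≠ 0 ∨ (x + y).1 ∈ F) := by
    intro h'
    exact h (Finset.mem_filter.2 ⟨Finset.mem_univ _, h'⟩)
  push Not at h1
  obtain ⟨h3, h4⟩ := h1
  refine ⟨?_, h4⟩
  have h5 : x.2 + y.2 = 0 := h3
  calc x.2 = x.2 + (y.2 + y.2) := by rw [h2, add_zero]
    _ = (x.2 + y.2) + y.2 := by rw [add_assoc]
    _ = y.2 := by rw [h5, zero_add]

theorem farProd_bounds {P Y : Type} [AddCommGroup P] [Fintype P] [DecidableEq P]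
    [AddCommGroup Y] [Fintype Y] [DecidableEq Y] (h2 : ∀ y : Y, y + y = 0)
    (F : Finset P) (h0 : (0 : P) ∉ F) (c κ : ℕ)
    (hc : ∀ A : Finset P, Ind F A → A.card ≤ c)
    (hκ : ∀ A L : Finset P, A.Nonempty → Ind F A → (∀ x ∈ A, ∀ y ∈ L, x + y ∉ F) →
      L.card + A.card ≤ κ) :
    (0 : P × Y) ∉ farProd (Y := Y) F ∧
    (∀ A : Finset (P × Y), Ind (farProd F) A → A.card ≤ c) ∧
    (∀ A L : Finset (P × Y), A.Nonempty → Ind (farProd F) A →
      (∀ x ∈ A, ∀ y ∈ L, x + y ∉ farProd F) → L.card + A.card ≤ κ) := by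
  have hinj : ∀ (B : Finset (P × Y)) (z : Y), (∀ x ∈ B, x.2 = z) →
      (B.image Prod.fst).card = B.card := by
    intro B z hB
    apply Finset.card_image_of_injOn
    intro x hx y hy hxy
    exact Prod.ext hxy ((hB x hx).trans (hB y hy).symm)
  have hind : ∀ A : Finset (P × Y), Ind (farProd F) A → Ind F (A.image Prod.fst) := by
    intro A hA x hx y hy
    obtain ⟨x', hx', rfl⟩ := Finset.mem_image.1 hx
    obtain ⟨y', hy', rfl⟩ := Finset.mem_image.1 hy
    exact (farProd_bounds_sum h2 F x' y' (hA x' hx' y' hy')).2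
  refine ⟨?_, ?_, ?_⟩
  · intro h
    rcases (Finset.mem_filter.1 h).2 with h3 | h3
    · exact h3 rfl
    · exact h0 h3
  · intro A hA
    rcases A.eq_empty_or_nonempty with h | ⟨x0, hx0⟩
    · rw [h]
      simp
    · rw [← hinj A x0.2 (fun x hx => (farProd_bounds_sum h2 F x x0 (hA x hx x0 hx0)).1)]
      exact hc _ (hind A hA)
  · intro A L hne hA hAL
    obtain ⟨x0, hx0⟩ := hne
    rw [← hinj A x0.2 (fun x hx => (farProd_bounds_sum h2 F x x0 (hA x hx x0 hx0)).1),
      ← hinj L x0.2 (fun y hy => (farProd_bounds_sum h2 F x0 y (hAL x0 hx0 y hy)).1.symm)]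
    refine hκ _ _ ⟨x0.1, Finset.mem_image_of_mem _ hx0⟩ (hind A hA) ?_
    intro x hx y hy
    obtain ⟨x', hx', rfl⟩ := Finset.mem_image.1 hx
    obtain ⟨y', hy', rfl⟩ := Finset.mem_image.1 hy
    exact (farProd_bounds_sum h2 F x' y' (hAL x' hx' y' hy')).2

end Pool.Agent.CubeLike
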