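import Pool.Agent.Helper927.Cube.Defs
set_option autoImplicit false
set_option maxHeartbeats 4000000

namespace Pool.Agent.CubeLike

open Finset

/-! ### AVAILABLE: statements you may use; leave these `sorry`s in place (they are proved in other jobs) -/



/-! ### TARGET: replace the `sorry`s below by proofs (auxiliary lemmas are fine, put them in this file) -/

theorem galpha_card {Q : Type} [Fintype Q] [DecidableEq Q]
    (J : Finset (ZMod 2 × ZMod 2 × Q)) :
    J.card = (univ.filter fun q => (0, 0, q) ∈ J ∨ (0, 1, q) ∈ J).card +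
      (univ.filter fun q => (0, 0, q) ∈ J ∧ (0, 1, q) ∈ J).card +
      ((univ.filter fun q => (1, 0, q) ∈ J ∨ (1, 1, q) ∈ J).card +
      (univ.filter fun q => (1, 0, q) ∈ J ∧ (1, 1, q) ∈ J).card) := by
  have hu : (univ : Finset (ZMod 2)) = {0, 1} := rfl
  have h01 : (0 : ZMod 2) ≠ 1 := by decide
  have h1 : J.card = ∑ x : ZMod 2 × ZMod 2 × Q, if x ∈ J then 1 else 0 := by
    rw [← Finset.card_filter]
    congr 1
    ext x; simp
  rw [h1, Fintype.sum_prod_type, hu, Finset.sum_pair h01, Fintype.sum_prod_type,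
    Fintype.sum_prod_type, hu, Finset.sum_pair h01, Finset.sum_pair h01, ← Finset.card_filter,
    ← Finset.card_filter, ← Finset.card_filter, ← Finset.card_filter]
  rw [Finset.filter_or, Finset.filter_and, Finset.filter_or, Finset.filter_and,
    Finset.card_union_add_card_inter, Finset.card_union_add_card_inter]


theorem galpha {Q : Type} [AddCommGroup Q] [Fintype Q] [DecidableEq Q] (h2 : ∀ x : Q, x + x = 0)
    (F : Finset Q) (h0 : (0 : Q) ∉ F) (c κ : ℕ)
    (hc : ∀ A : Finset Q, Ind F A → A.card ≤ c)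
    (hκ : ∀ A L : Finset Q, A.Nonempty → Ind F A → (∀ x ∈ A, ∀ y ∈ L, x + y ∉ F) →
      L.card + A.card ≤ κ)
    (h2κ : 2 * κ ≤ Fintype.card Q + c) (J : Finset (ZMod 2 × ZMod 2 × Q))
    (hJ : ∀ x ∈ J, ∀ y ∈ J, ¬ (cay (gset F)).Adj x y) : J.card ≤ Fintype.card Q + c := by
  have hadj : ∀ x ∈ J, ∀ y ∈ J, x ≠ y → x + y ∉ gset F := by
    intro x hx y hy hne hmem
    exact hJ x hx y hy ((SimpleGraph.fromRel_adj _ _ _).2 ⟨hne, Or.inl hmem⟩)
  have hww : ∀ w : ZMod 2, w + w = 0 := fun w => CharTwo.add_self_eq_zero w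
  set A : ZMod 2 → Finset Q := fun w => univ.filter fun q => (w, 0, q) ∈ J ∧ (w, 1, q) ∈ J with hA
  set L : ZMod 2 → Finset Q := fun w => univ.filter fun q => (w, 0, q) ∈ J ∨ (w, 1, q) ∈ J with hL
  have hcard : J.card = (L 0).card + (A 0).card + ((L 1).card + (A 1).card) := galpha_card J
  have h4 : ∀ w, ∀ x ∈ A w, ∀ y ∈ L w, x + y ∉ F := by
    intro w x hx y hy hF
    have hx' := (Finset.mem_filter.1 hx).2
    rcases (Finset.mem_filter.1 hy).2 with h | h
    · refine hadj _ hx'.2 _ h (fun he => ?_) (Or.inl ⟨hww w, ?_, hF⟩)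
      · have : (1 : ZMod 2) = 0 := congrArg (fun p : ZMod 2 × ZMod 2 × Q => p.2.1) he
        exact absurd this (by decide)
      · show (1 : ZMod 2) + 0 = 1
        decide
    · refine hadj _ hx'.1 _ h (fun he => ?_) (Or.inl ⟨hww w, ?_, hF⟩)
      · have : (0 : ZMod 2) = 1 := congrArg (fun p : ZMod 2 × ZMod 2 × Q => p.2.1) he
        exact absurd this (by decide)
      · show (0 : ZMod 2) + 1 = 1
        decide
  have hAL : ∀ w, A w ⊆ L w := fun w q hq =>
    Finset.mem_filter.2 ⟨Finset.mem_univ _, Or.inl (Finset.mem_filter.1 hq).2.1⟩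
  have h3 : ∀ w, Ind F (A w) := fun w x hx y hy => h4 w x hx y (hAL w hy)
  have hLd : Disjoint (L 0) (L 1) := by
    rw [Finset.disjoint_left]
    intro q h0' h1'
    have key : ∀ u u' : ZMod 2, (0, u, q) ∈ J → (1, u', q) ∈ J → False := by
      intro u u' ha hb
      refine hadj _ ha _ hb (fun he => ?_) (Or.inr ⟨?_, h2 q⟩)
      · have : (0 : ZMod 2) = 1 := congrArg (fun p : ZMod 2 × ZMod 2 × Q => p.1) he
        exact absurd this (by decide)
      · show (0 : ZMod 2) + 1 = 1
        decide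
    rcases (Finset.mem_filter.1 h0').2 with a | a <;>
      rcases (Finset.mem_filter.1 h1').2 with b | b <;> exact key _ _ a b
  have hLc : (L 0).card + (L 1).card ≤ Fintype.card Q := by
    rw [← Finset.card_union_of_disjoint hLd]
    exact Finset.card_le_univ _
  have hA0 := hc (A 0) (h3 0)
  have hA1 := hc (A 1) (h3 1)
  rcases Finset.eq_empty_or_nonempty (A 0) with e0 | n0
  · rw [e0, Finset.card_empty] at hcard
    omega
  rcases Finset.eq_empty_or_nonempty (A 1) with e1 | n1
  · rw [e1, Finset.card_empty] at hcard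
    omega
  have k0 := hκ (A 0) (L 0) n0 (h3 0) (h4 0)
  have k1 := hκ (A 1) (L 1) n1 (h3 1) (h4 1)
  omega

end Pool.Agent.CubeLike
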