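import Pool.Agent.Helper927.Cube.Defs
import Pool.Agent.Helper927.Cube.FAR
import Pool.Agent.Helper927.Cube.GAL
import Pool.Agent.Helper927.Cube.GCO
import Pool.Agent.Helper927.Cube.LEX
import Pool.Agent.Helper927.Cube.PCO
set_option autoImplicit false
set_option maxHeartbeats 4000000

namespace Pool.Agent.CubeLike

open Finset

/-! ### TARGET: replace the `sorry`s below by proofs (auxiliary lemmas are fine, put them in this file) -/

theorem block_att {P Y : Type} [AddCommGroup P] [Fintype P] [DecidableEq P]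
    [AddCommGroup Y] [Fintype Y] [DecidableEq Y] (h2P : ∀ x : P, x + x = 0)
    (h2Y : ∀ y : Y, y + y = 0) (F : Finset P) (h0 : (0 : P) ∉ F) (c κ : ℕ)
    (hc : ∀ A : Finset P, Ind F A → A.card ≤ c)
    (hκ : ∀ A L : Finset P, A.Nonempty → Ind F A → (∀ x ∈ A, ∀ y ∈ L, x + y ∉ F) →
      L.card + A.card ≤ κ)
    (h2κ : 2 * κ ≤ Fintype.card P * Fintype.card Y + c)
    (f D b m : ℕ) (s : Fin f → ZMod 2 → ZMod 2) (pat : Y → Pattern P f)
    (hgood : ∀ y, (pat y).Good F D s)
    (hsize : ∀ w u, (∑ y, ((pat y).C w u).length) + D ≤ b) (hm0 : 0 < m)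
    (hm : m + 4 * D = 4 * b + f)
    (hlow : (m - 1) * (Fintype.card P * Fintype.card Y + c) <
      b * (4 * (Fintype.card P * Fintype.card Y))) (hb : Att b) : Att m := by
  have h2Q : ∀ q : P × Y, q + q = 0 := fun q => Prod.ext (h2P q.1) (h2Y q.2)
  obtain ⟨h0', hc', hκ'⟩ := farProd_bounds (Y := Y) h2Y F h0 c κ hc hκ
  have hcardQ : Fintype.card (P × Y) = Fintype.card P * Fintype.card Y := Fintype.card_prod P Y
  obtain ⟨C, a, hCind, hcov⟩ := pattern_cover h2Y F f D b s pat hgood hsize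
  have hDb : D ≤ b := by
    have h := hsize 0 0
    omega
  have hm' : m = 4 * (b - D) + f := by omega
  obtain ⟨I, hI, hIcov⟩ := gcover h2Q (farProd (Y := Y) F) h0' b m (b - D) f hm' C hCind s a hcov
  have h2V : ∀ v : ZMod 2 × ZMod 2 × (P × Y), v + v = 0 := by
    intro v
    have hz : ∀ z : ZMod 2, z + z = 0 := by decide
    exact Prod.ext (hz v.1) (Prod.ext (hz v.2.1) (h2Q v.2.2))
  have hcardV : Fintype.card (ZMod 2 × ZMod 2 × (P × Y)) =
      4 * (Fintype.card P * Fintype.card Y) := by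
    simp only [Fintype.card_prod, ZMod.card]
    ring
  refine lex h2V (gset (farProd (Y := Y) F)) b m (Fintype.card P * Fintype.card Y + c) hm0 I hI
    hIcov ?_ ?_ hb
  · intro J hJ
    have h := galpha h2Q (farProd (Y := Y) F) h0' c κ hc' hκ' (by rw [hcardQ]; exact h2κ) J hJ
    rw [hcardQ] at h
    exact h
  · rw [hcardV]
    exact hlow

end Pool.Agent.CubeLike
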