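import Mathlib

set_option autoImplicit false

namespace Pool.Agent.CubeLike

open Finset

/-- The Cayley graph on an additive group `V` in which distinct `x`, `y` are adjacent when `x + y ∈ S`
(or `y + x ∈ S`). -/
def cay {V : Type} [Add V] (S : Set V) : SimpleGraph V :=
  SimpleGraph.fromRel (fun x y : V => x + y ∈ S)

/-- `m` is the chromatic number of some Cayley graph of some `(ℤ/2)^d`. -/
def Att (m : ℕ) : Prop :=
  ∃ d : ℕ, ∃ S : Set (Fin d → ZMod 2), (cay S).chromaticNumber = (m : ℕ∞)

/-- Bit vectors of length `n` (numbers below `2 ^ n`) with the exclusive or as addition. -/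
def XN (n : ℕ) : Type := Fin (2 ^ n)

instance (n : ℕ) : DecidableEq (XN n) := inferInstanceAs (DecidableEq (Fin (2 ^ n)))
instance (n : ℕ) : Fintype (XN n) := inferInstanceAs (Fintype (Fin (2 ^ n)))

instance (n : ℕ) : Zero (XN n) := ⟨⟨0, Nat.two_pow_pos n⟩⟩
instance (n : ℕ) : Add (XN n) := ⟨fun a b => ⟨a.1 ^^^ b.1, Nat.xor_lt_two_pow a.2 b.2⟩⟩
instance (n : ℕ) : Neg (XN n) := ⟨fun a => a⟩

instance (n : ℕ) : AddCommGroup (XN n) where
  add_assoc a b c := Fin.ext (Nat.xor_assoc a.1 b.1 c.1)
  zero_add a := Fin.ext (Nat.zero_xor a.1)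
  add_zero a := Fin.ext (Nat.xor_zero a.1)
  neg_add_cancel a := Fin.ext (Nat.xor_self a.1)
  add_comm a b := Fin.ext (Nat.xor_comm a.1 b.1)
  nsmul := nsmulRec
  zsmul := zsmulRec

theorem XN.add_val {n : ℕ} (a b : XN n) : (a + b).1 = a.1 ^^^ b.1 := rfl
theorem XN.zero_val {n : ℕ} : (0 : XN n).1 = 0 := rfl
theorem XN.add_self {n : ℕ} (a : XN n) : a + a = 0 := Fin.ext (Nat.xor_self a.1)
theorem XN.card (n : ℕ) : Fintype.card (XN n) = 2 ^ n := Fintype.card_fin _

/-- The elements of `XN n` listed in `gens`. -/
def farSet (n : ℕ) (gens : List ℕ) : Finset (XN n) := univ.filter (fun x => x.1 ∈ gens)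

/-- `A` has no two elements whose sum lies in `F`. -/
def Ind {P : Type} [Add P] (F : Finset P) (A : Finset P) : Prop :=
  ∀ x ∈ A, ∀ y ∈ A, x + y ∉ F

/-- The connection set on `ZMod 2 × ZMod 2 × Q` (coordinates: layer, side, fibre). -/
def gset {Q : Type} [Zero Q] (F : Finset Q) : Set (ZMod 2 × ZMod 2 × Q) :=
  {s | (s.1 = 0 ∧ s.2.1 = 1 ∧ s.2.2 ∈ F) ∨ (s.1 = 1 ∧ s.2.2 = 0)}

/-- The connection set on `P × Y` consisting of `(x, y)` with `y ≠ 0` or `x ∈ F`. -/
def farProd {P Y : Type} [Fintype P] [Fintype Y] [DecidableEq P] [DecidableEq Y] [Zero Y]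
    (F : Finset P) : Finset (P × Y) :=
  univ.filter (fun q => q.2 ≠ 0 ∨ q.1 ∈ F)

/-- A block pattern: for every layer and side a list of sets, and a choice of layers for the
flexible colours. -/
structure Pattern (P : Type) (f : ℕ) where
  C : ZMod 2 → ZMod 2 → List (Finset P)
  a : P → Fin f → ZMod 2

/-- Number of sets of the given type containing `x`. -/
def Pattern.cnt {P : Type} [DecidableEq P] {f : ℕ} (π : Pattern P f) (w u : ZMod 2) (x : P) : ℕ :=
  (π.C w u).countP (fun C => decide (x ∈ C))

/-- The pattern consists of independent sets and satisfies the local covering condition. -/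
def Pattern.Good {P : Type} [AddCommGroup P] [DecidableEq P] {f : ℕ} (F : Finset P) (D : ℕ)
    (s : Fin f → ZMod 2 → ZMod 2) (π : Pattern P f) : Prop :=
  (∀ w u, ∀ C ∈ π.C w u, Ind F C) ∧
  ∀ x w u, π.cnt w u x + D ≤ π.cnt (w + 1) 0 x + π.cnt (w + 1) 1 x +
    (univ.filter (fun k => π.a x k = w ∧ s k w = u)).card

/-- The entry for a layer and a side. -/
def sel {α : Type} (c00 c01 c10 c11 : α) (w u : ZMod 2) : α :=
  if w = 0 then (if u = 0 then c00 else c01) else (if u = 0 then c10 else c11)

/-- The set of numbers `x` for which bit `x` of `M` is set. -/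
def maskSet (n : ℕ) (M : ℕ) : Finset (XN n) := univ.filter (fun x => M.testBit x.1 = true)

/-- A pattern given by bit masks. -/
def natPat (n f : ℕ) (c00 c01 c10 c11 asg : List ℕ) : Pattern (XN n) f where
  C := fun w u => (sel c00 c01 c10 c11 w u).map (maskSet n)
  a := fun x k => if (asg.getD x.1 0).testBit k.1 = true then 1 else 0

/-- Sides of the flexible colours given by two bit masks. -/
def sides (f : ℕ) (s0 s1 : ℕ) : Fin f → ZMod 2 → ZMod 2 := fun k w =>
  if w = 0 then (if s0.testBit k.1 = true then 1 else 0)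
  else (if s1.testBit k.1 = true then 1 else 0)

/-- Checks that a mask is an independent set. -/
def maskInd (n : ℕ) (gens : List ℕ) (M : ℕ) : Bool :=
  (List.range (2 ^ n)).all fun x => !M.testBit x || gens.all fun g => !M.testBit (x ^^^ g)

/-- Boolean check of `Pattern.Good` for a pattern given by bit masks. -/
def patOK (n f D : ℕ) (gens c00 c01 c10 c11 asg : List ℕ) (s0 s1 : ℕ) : Bool :=
  (c00.all (maskInd n gens)) && (c01.all (maskInd n gens)) && (c10.all (maskInd n gens)) &&
  (c11.all (maskInd n gens)) &&
  (List.range (2 ^ n)).all fun x =>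
    let e00 := c00.countP fun M => M.testBit x
    let e01 := c01.countP fun M => M.testBit x
    let e10 := c10.countP fun M => M.testBit x
    let e11 := c11.countP fun M => M.testBit x
    let r := asg.getD x 0
    let f00 := (List.range f).countP fun k => !r.testBit k && !s0.testBit k
    let f01 := (List.range f).countP fun k => !r.testBit k && s0.testBit k
    let f10 := (List.range f).countP fun k => r.testBit k && !s1.testBit k
    let f11 := (List.range f).countP fun k => r.testBit k && s1.testBit k
    decide (e00 + D ≤ e10 + e11 + f00) && decide (e01 + D ≤ e10 + e11 + f01) &&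
      decide (e10 + D ≤ e00 + e01 + f10) && decide (e11 + D ≤ e00 + e01 + f11)

/-- The neighbourhood of `v` as a bit mask. -/
def nbr (gens : List ℕ) (v : ℕ) : ℕ := gens.foldl (fun a s => a ||| 2 ^ (v ^^^ s)) 0

/-- Searches for an independent set avoiding `forb` and missing at most `sk` of the blocks;
returns `true` if there is none. -/
def go (gens : List ℕ) : List (List ℕ) → ℕ → ℕ → Bool
  | [], _, _ => false
  | c :: cs, forb, sk =>
    (c.all fun v => forb.testBit v || go gens cs (forb ||| nbr gens v) sk) &&
      (sk == 0 || go gens cs forb (sk - 1))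

/-- Binary trees of bit masks. -/
inductive Tree where
  | leaf (m : ℕ) : Tree
  | node (l r : Tree) : Tree

/-- Lookup in a tree of depth `d`, following the bits of `v` from bit `d - 1` down. -/
def Tree.get : Tree → ℕ → ℕ → ℕ
  | .leaf m, _, _ => m
  | .node l r, d, v => if v.testBit (d - 1) then r.get (d - 1) v else l.get (d - 1) v

/-- Remove greedily cliques from `rest` until `k` new cliques have been started; returns the
remaining vertices (0 if fewer cliques suffice). `q` is the set of vertices of `rest` that can still be added to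
the current clique. -/
def peel (T : Tree) (d : ℕ) : ℕ → ℕ → ℕ → ℕ → ℕ
  | 0, rest, _, _ => rest
  | fuel + 1, rest, q, k =>
    if q == 0 then
      if rest == 0 then 0
      else
        match k with
        | 0 => rest
        | k + 1 => peel T d fuel rest rest k
    else
      let v := q.log2
      let rest' := rest ^^^ 2 ^ v
      peel T d fuel rest' ((q ^^^ 2 ^ v) &&& T.get d v) k

mutual
/-- `bb T d fuel cand k` is `true` only if `cand` contains no independent set of size at least `k`. -/
def bb (T : Tree) (d : ℕ) : ℕ → ℕ → ℕ → Bool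
  | 0, _, _ => false
  | _ + 1, _, 0 => false
  | fuel + 1, cand, k + 1 => bbs T d fuel cand (peel T d (2 * 2 ^ d + 2) cand 0 k) k
/-- Branch on all vertices of `rest`. -/
def bbs (T : Tree) (d : ℕ) : ℕ → ℕ → ℕ → ℕ → Bool
  | 0, _, _, _ => false
  | fuel + 1, cand, rest, k =>
    if rest == 0 then true
    else
      let v := rest.log2
      let cand' := cand ^^^ 2 ^ v
      bb T d fuel (cand' ^^^ (cand' &&& T.get d v)) k && bbs T d fuel cand' (rest ^^^ 2 ^ v) k
end

/-- As `Pattern.Good`, with a deficit depending on layer and side. -/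
def Pattern.GoodG {P : Type} [AddCommGroup P] [DecidableEq P] {f : ℕ} (F : Finset P)
    (D : ZMod 2 → ZMod 2 → ℕ) (s : Fin f → ZMod 2 → ZMod 2) (π : Pattern P f) : Prop :=
  (∀ w u, ∀ C ∈ π.C w u, Ind F C) ∧
  ∀ x w u, π.cnt w u x + D w u ≤ π.cnt (w + 1) 0 x + π.cnt (w + 1) 1 x +
    (univ.filter (fun k => π.a x k = w ∧ s k w = u)).card

/-- Boolean check of `Pattern.GoodG` for a pattern given by bit masks. -/
def patOKG (n f d00 d01 d10 d11 : ℕ) (gens c00 c01 c10 c11 asg : List ℕ) (s0 s1 : ℕ) : Bool :=
  (c00.all (maskInd n gens)) && (c01.all (maskInd n gens)) && (c10.all (maskInd n gens)) &&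
  (c11.all (maskInd n gens)) &&
  (List.range (2 ^ n)).all fun x =>
    let e00 := c00.countP fun M => M.testBit x
    let e01 := c01.countP fun M => M.testBit x
    let e10 := c10.countP fun M => M.testBit x
    let e11 := c11.countP fun M => M.testBit x
    let r := asg.getD x 0
    let f00 := (List.range f).countP fun k => !r.testBit k && !s0.testBit k
    let f01 := (List.range f).countP fun k => !r.testBit k && s0.testBit k
    let f10 := (List.range f).countP fun k => r.testBit k && !s1.testBit k
    let f11 := (List.range f).countP fun k => r.testBit k && s1.testBit k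
    decide (e00 + d00 ≤ e10 + e11 + f00) && decide (e01 + d01 ≤ e10 + e11 + f01) &&
      decide (e10 + d10 ≤ e00 + e01 + f10) && decide (e11 + d11 ≤ e00 + e01 + f11)

end Pool.Agent.CubeLike
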