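import Pool.Agent.Helper927.Cube.Defs
set_option autoImplicit false
set_option maxHeartbeats 4000000

namespace Pool.Agent.CubeLike

open Finset

/-! ### AVAILABLE: statements you may use; leave these `sorry`s in place (they are proved in other jobs) -/



/-! ### TARGET: replace the `sorry`s below by proofs (auxiliary lemmas are fine, put them in this file) -/

theorem galpha2 {Q : Type} [AddCommGroup Q] [Fintype Q] [DecidableEq Q] (h2 : ∀ x : Q, x + x = 0)
    (F : Finset Q) (h0 : (0 : Q) ∉ F) (c κ₁ κ₂ : ℕ) (hc2 : 2 ≤ c)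
    (hc : ∀ A : Finset Q, Ind F A → A.card ≤ c)
    (hκ₁ : ∀ A L : Finset Q, A.card = 1 → Ind F A → (∀ x ∈ A, ∀ y ∈ L, x + y ∉ F) →
      L.card + A.card ≤ κ₁)
    (hκ₂ : ∀ A L : Finset Q, 2 ≤ A.card → Ind F A → (∀ x ∈ A, ∀ y ∈ L, x + y ∉ F) →
      L.card + A.card ≤ κ₂)
    (h12 : κ₁ + κ₂ ≤ Fintype.card Q + c) (h22 : 2 * κ₂ ≤ Fintype.card Q + c)
    (J : Finset (ZMod 2 × ZMod 2 × Q))
    (hJ : ∀ x ∈ J, ∀ y ∈ J, ¬ (cay (gset F)).Adj x y) : J.card ≤ Fintype.card Q + c := by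
  classical
  have hn : ∀ x ∈ J, ∀ y ∈ J, x ≠ y → x + y ∉ gset F := by
    intro x hx y hy hxy hmem
    apply hJ x hx y hy
    rw [cay, SimpleGraph.fromRel_adj]
    exact ⟨hxy, Or.inl hmem⟩
  have z01 : (0 : ZMod 2) ≠ 1 := by decide
  have z2 : ∀ w : ZMod 2, w + w = 0 := by decide
  have zc : ∀ w : ZMod 2, w = 0 ∨ w = 1 := by decide
  let Jf : ZMod 2 → ZMod 2 → Finset Q := fun w u => univ.filter (fun q => (w, u, q) ∈ J)
  have hJf : ∀ w u q, q ∈ Jf w u ↔ (w, u, q) ∈ J := by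
    intro w u q; simp [Jf]
  let L : ZMod 2 → Finset Q := fun w => Jf w 0 ∪ Jf w 1
  let A : ZMod 2 → Finset Q := fun w => Jf w 0 ∩ Jf w 1
  have hL : ∀ w q, q ∈ L w ↔ ∃ u, (w, u, q) ∈ J := by
    intro w q
    simp only [L, Finset.mem_union, hJf]
    constructor
    · rintro (h | h)
      · exact ⟨0, h⟩
      · exact ⟨1, h⟩
    · rintro ⟨u, h⟩
      rcases zc u with rfl | rfl
      · exact Or.inl h
      · exact Or.inr h
  have hA : ∀ w q, q ∈ A w ↔ ∀ u, (w, u, q) ∈ J := by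
    intro w q
    simp only [A, Finset.mem_inter, hJf]
    constructor
    · rintro ⟨h0, h1⟩ u
      rcases zc u with rfl | rfl
      · exact h0
      · exact h1
    · intro h
      exact ⟨h 0, h 1⟩
  have hcard : J.card = (L 0).card + (A 0).card + ((L 1).card + (A 1).card) := by
    have h1 : J.card = ∑ w : ZMod 2, ∑ u : ZMod 2, (Jf w u).card := by
      have e1 : J = univ.filter (fun x => x ∈ J) := by ext x; simp
      have e2 : J.card = ∑ x : ZMod 2 × ZMod 2 × Q, if x ∈ J then 1 else 0 := by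
        conv_lhs => rw [e1]
        rw [Finset.card_filter]
      rw [e2, Fintype.sum_prod_type]
      apply Finset.sum_congr rfl
      intro w _
      rw [Fintype.sum_prod_type]
      apply Finset.sum_congr rfl
      intro u _
      rw [Finset.card_filter]
    have hs : ∀ f : ZMod 2 → ℕ, ∑ w : ZMod 2, f w = f 0 + f 1 := fun f => Fin.sum_univ_two f
    rw [h1, hs, hs, hs]
    have e3 := Finset.card_union_add_card_inter (Jf 0 0) (Jf 0 1)
    have e4 := Finset.card_union_add_card_inter (Jf 1 0) (Jf 1 1)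
    show (Jf 0 0).card + (Jf 0 1).card + ((Jf 1 0).card + (Jf 1 1).card) =
      (Jf 0 0 ∪ Jf 0 1).card + (Jf 0 0 ∩ Jf 0 1).card +
        ((Jf 1 0 ∪ Jf 1 1).card + (Jf 1 0 ∩ Jf 1 1).card)
    omega
  have hdisj : Disjoint (L 0) (L 1) := by
    rw [Finset.disjoint_left]
    intro q hq0 hq1
    obtain ⟨u, hu⟩ := (hL 0 q).mp hq0
    obtain ⟨u', hu'⟩ := (hL 1 q).mp hq1
    apply hn _ hu _ hu'
    · intro h
      exact z01 (congrArg Prod.fst h)
    · right
      exact ⟨by show (0 : ZMod 2) + 1 = 1; decide, h2 q⟩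
  have hLL : (L 0).card + (L 1).card ≤ Fintype.card Q := by
    rw [← Finset.card_union_of_disjoint hdisj]
    exact Finset.card_le_univ _
  have hI : ∀ w, Ind F (A w) := by
    intro w x hx y hy hxy
    have h0' := (hA w x).mp hx 0
    have h1' := (hA w y).mp hy 1
    apply hn _ h0' _ h1'
    · intro h
      exact z01 (congrArg (fun t : ZMod 2 × ZMod 2 × Q => t.2.1) h)
    · left
      exact ⟨z2 w, by show (0 : ZMod 2) + 1 = 1; decide, hxy⟩
  have hAL : ∀ w, ∀ x ∈ A w, ∀ y ∈ L w, x + y ∉ F := by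
    intro w x hx y hy hxy
    obtain ⟨u, hu⟩ := (hL w y).mp hy
    have h1' := (hA w x).mp hx (u + 1)
    apply hn _ h1' _ hu
    · intro h
      have h3 := congrArg (fun t : ZMod 2 × ZMod 2 × Q => t.2.1) h
      have h4 : ∀ u : ZMod 2, u + 1 ≠ u := by decide
      exact h4 u h3
    · left
      refine ⟨z2 w, ?_, hxy⟩
      show u + 1 + u = 1
      have h4 : ∀ u : ZMod 2, u + 1 + u = 1 := by decide
      exact h4 u
  have c0 := hc (A 0) (hI 0)
  have c1 := hc (A 1) (hI 1)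
  rw [hcard]
  by_cases a0 : (A 0).card = 0
  · omega
  by_cases a1 : (A 1).card = 0
  · omega
  by_cases b0 : (A 0).card = 1
  · have k0 := hκ₁ (A 0) (L 0) b0 (hI 0) (hAL 0)
    by_cases b1 : (A 1).card = 1
    · omega
    · have k1 := hκ₂ (A 1) (L 1) (by omega) (hI 1) (hAL 1)
      omega
  · have k0 := hκ₂ (A 0) (L 0) (by omega) (hI 0) (hAL 0)
    by_cases b1 : (A 1).card = 1
    · have k1 := hκ₁ (A 1) (L 1) b1 (hI 1) (hAL 1)
      omega
    · have k1 := hκ₂ (A 1) (L 1) (by omega) (hI 1) (hAL 1)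
      omega

end Pool.Agent.CubeLike
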