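import Pool.Agent.Helper927.Cube.Defs
import Pool.Agent.Helper927.Cube.GA2
import Pool.Agent.Helper927.Cube.GCO
import Pool.Agent.Helper927.Cube.LEX
import Pool.Agent.Helper927.Cube.PCO
set_option autoImplicit false
set_option maxHeartbeats 4000000

namespace Pool.Agent.CubeLike

open Finset

/-! ### TARGET: replace the `sorry`s below by proofs (auxiliary lemmas are fine, put them in this file) -/

theorem fam_zero_count {P : Type} [DecidableEq P] (x : P) (l : List (Finset P)) :
    ∀ N : ℕ, l.length ≤ N →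
      (univ.filter (fun i : Fin N => x ∈ l.getD i.1 ∅)).card =
        l.countP (fun C => decide (x ∈ C)) := by
  induction l with
  | nil =>
    intro N _
    simp
  | cons a l ih =>
    intro N hN
    cases N with
    | zero => simp at hN
    | succ N =>
      have hl : l.length ≤ N := by simpa using hN
      rw [Fin.card_filter_univ_succ, List.countP_cons]
      have h := ih N hl
      simp only [Fin.val_zero, List.getD_cons_zero, Fin.val_succ, List.getD_cons_succ] at h ⊢
      rw [h]
      by_cases hx : x ∈ a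
      · simp [hx]
      · simp [hx]

theorem fam_zero (n f D c κ₁ κ₂ b m : ℕ) (gens : List ℕ) (h0 : 0 ∉ gens)
    (s : Fin f → ZMod 2 → ZMod 2) (pt : Pattern (XN n) f)
    (hgood : pt.Good (farSet n gens) D s)
    (hlen : ∀ w u, (pt.C w u).length + D ≤ b) (hc2 : 2 ≤ c)
    (hc : ∀ A : Finset (XN n), Ind (farSet n gens) A → A.card ≤ c)
    (hκ₁ : ∀ A L : Finset (XN n), A.card = 1 → Ind (farSet n gens) A →
      (∀ x ∈ A, ∀ y ∈ L, x + y ∉ farSet n gens) → L.card + A.card ≤ κ₁)
    (hκ₂ : ∀ A L : Finset (XN n), 2 ≤ A.card → Ind (farSet n gens) A →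
      (∀ x ∈ A, ∀ y ∈ L, x + y ∉ farSet n gens) → L.card + A.card ≤ κ₂)
    (h12 : κ₁ + κ₂ ≤ 2 ^ n + c) (h22 : 2 * κ₂ ≤ 2 ^ n + c) (hm0 : 0 < m)
    (hm : m + 4 * D = 4 * b + f) (hlow : (m - 1) * (2 ^ n + c) < b * (4 * 2 ^ n))
    (hb : Att b) : Att m := by
  have h0' : (0 : XN n) ∉ farSet n gens := by
    simp only [farSet, Finset.mem_filter, Finset.mem_univ, true_and, XN.zero_val]
    exact h0
  have hDb : D ≤ b := le_trans (Nat.le_add_left _ _) (hlen 0 0)
  have hlen' : ∀ w u, (pt.C w u).length ≤ b - D := by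
    intro w u
    have := hlen w u
    omega
  obtain ⟨I, hI, hcovI⟩ := gcover (Q := XN n) XN.add_self (farSet n gens) h0' b m (b - D) f
    (by omega) (fun w u i => (pt.C w u).getD i.1 ∅)
    (by
      intro w u i
      by_cases hi : i.1 < (pt.C w u).length
      · have hmem : (pt.C w u).getD i.1 ∅ ∈ pt.C w u := by
          rw [List.getD_eq_getElem _ _ hi]
          exact List.getElem_mem hi
        exact hgood.1 w u _ hmem
      · have he : (pt.C w u).getD i.1 ∅ = ∅ := List.getD_eq_default _ _ (by omega)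
        show Ind _ ((pt.C w u).getD i.1 ∅)
        rw [he]
        intro x hx
        simp at hx)
    s (fun q k => pt.a q k)
    (by
      intro q w u
      have h := hgood.2 q w u
      unfold Pattern.cnt at h
      rw [fam_zero_count q (pt.C w u) (b - D) (hlen' w u),
        fam_zero_count q (pt.C (w + 1) 0) (b - D) (hlen' (w + 1) 0),
        fam_zero_count q (pt.C (w + 1) 1) (b - D) (hlen' (w + 1) 1)]
      omega)
  have hcardV : Fintype.card (ZMod 2 × ZMod 2 × XN n) = 4 * 2 ^ n := by
    rw [Fintype.card_prod, Fintype.card_prod, ZMod.card, XN.card]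
    ring
  refine lex (V := ZMod 2 × ZMod 2 × XN n) ?_ (gset (farSet n gens)) b m (2 ^ n + c) hm0 I hI
    hcovI ?_ ?_ hb
  · rintro ⟨x, y, z⟩
    have hz2 : ∀ t : ZMod 2, t + t = 0 := by decide
    ext1
    · exact hz2 x
    · ext1
      · exact hz2 y
      · exact XN.add_self z
  · intro J hJ
    have := galpha2 (Q := XN n) XN.add_self (farSet n gens) h0' c κ₁ κ₂ hc2 hc hκ₁ hκ₂
      (by rw [XN.card]; exact h12) (by rw [XN.card]; exact h22) J hJ
    rwa [XN.card] at this
  · rw [hcardV]
    exact hlow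

end Pool.Agent.CubeLike
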