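import Pool.Agent.Helper927.Cube.Defs
import Pool.Agent.Helper927.Cube.BLK
set_option autoImplicit false
set_option maxHeartbeats 4000000

namespace Pool.Agent.CubeLike

open Finset

/-! ### TARGET: replace the `sorry`s below by proofs (auxiliary lemmas are fine, put them in this file) -/

theorem fam (n f D c κ k t b m ℓ : ℕ) (gens : List ℕ) (h0 : 0 ∉ gens)
    (s : Fin f → ZMod 2 → ZMod 2) (pt : XN k → Pattern (XN n) f)
    (hgood : ∀ y, (pt y).Good (farSet n gens) D s)
    (hlen : ∀ w u, (∑ y, ((pt y).C w u).length) = ℓ)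
    (hc : ∀ A : Finset (XN n), Ind (farSet n gens) A → A.card ≤ c)
    (hκ : ∀ A L : Finset (XN n), A.Nonempty → Ind (farSet n gens) A →
      (∀ x ∈ A, ∀ y ∈ L, x + y ∉ farSet n gens) → L.card + A.card ≤ κ)
    (h2κ : 2 * κ ≤ 2 ^ n * (2 ^ k * 2 ^ t) + c)
    (hsize : ℓ * 2 ^ t + D ≤ b) (hm0 : 0 < m) (hm : m + 4 * D = 4 * b + f)
    (hlow : (m - 1) * (2 ^ n * (2 ^ k * 2 ^ t) + c) < b * (4 * (2 ^ n * (2 ^ k * 2 ^ t))))
    (hb : Att b) : Att m := by
  have hcY : Fintype.card (XN k × XN t) = 2 ^ k * 2 ^ t := by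
    rw [Fintype.card_prod, XN.card, XN.card]
  refine block_att (P := XN n) (Y := XN k × XN t) XN.add_self
    (fun y => Prod.ext (XN.add_self _) (XN.add_self _)) (farSet n gens) ?_ c κ hc hκ ?_ f D b m s
    (fun y => pt y.1) (fun y => hgood y.1) ?_ hm0 hm ?_ hb
  · intro h
    rw [farSet, Finset.mem_filter] at h
    exact h0 h.2
  · rw [hcY, XN.card]; exact h2κ
  · intro w u
    have : (∑ y : XN k × XN t, ((pt y.1).C w u).length) = ℓ * 2 ^ t := by
      rw [Fintype.sum_prod_type]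
      simp only [Finset.sum_const, Finset.card_univ, XN.card, smul_eq_mul]
      rw [← Finset.mul_sum, hlen, mul_comm]
    rw [this]
    exact hsize
  · rw [hcY, XN.card]; exact hlow

end Pool.Agent.CubeLike
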