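import Pool.Agent.Helper927.Cube.Defs
set_option autoImplicit false
set_option maxHeartbeats 4000000

namespace Pool.Agent.CubeLike

open Finset

/-! ### TARGET: replace the `sorry`s below by proofs (auxiliary lemmas are fine, put them in this file) -/

theorem ggc_sum (h : ZMod 2 → ℕ) (w : ZMod 2) : ∑ w', h w' = h w + h (w + 1) := by
  have h1 : ∑ w', h w' = h 0 + h 1 := Fin.sum_univ_two h
  rw [h1]
  have hw : w = 0 ∨ w = 1 := by
    revert w
    decide
  rcases hw with rfl | rfl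
  · rfl
  · rw [add_comm]
    rfl

theorem ggc_z0 : ∀ w : ZMod 2, w + w ≠ 1 := by decide
theorem ggc_z1 : ∀ w : ZMod 2, w + (w + 1) ≠ 0 := by decide
theorem ggc_z2 : ∀ w : ZMod 2, w + 1 + w ≠ 0 := by decide
theorem ggc_z3 : ∀ w w' : ZMod 2, w + w' = 0 → w = w' := by decide
theorem ggc_z4 : ∀ w : ZMod 2, w ≠ w + 1 := by decide
theorem ggc_z5 : ∀ w : ZMod 2, w = w + 1 + 1 := by decide

/-- the independent sets -/
def ggcK {Q : Type} [AddCommGroup Q] [Fintype Q] [DecidableEq Q] {f : ℕ} {n : ZMod 2 → ZMod 2 → ℕ}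
    (C : (w u : ZMod 2) → Fin (n w u) → Finset Q)
    (s : Fin f → ZMod 2 → ZMod 2) (a : Q → Fin f → ZMod 2) :
    (Σ w : ZMod 2, Σ u : ZMod 2, Fin (n w u)) ⊕ Fin f → Finset (ZMod 2 × ZMod 2 × Q)
  | Sum.inl t => univ.filter (fun x => (x.1 = t.1 ∧ x.2.1 = t.2.1 ∧ x.2.2 ∉ C t.1 t.2.1 t.2.2) ∨
      (x.1 = t.1 + 1 ∧ x.2.2 ∈ C t.1 t.2.1 t.2.2))
  | Sum.inr k => univ.filter (fun x => a x.2.2 k = x.1 ∧ s k x.1 = x.2.1)

theorem ggc_ind {Q : Type} [AddCommGroup Q] [Fintype Q] [DecidableEq Q]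
    (h2 : ∀ x : Q, x + x = 0)
    (F : Finset Q) (f : ℕ) (n : ZMod 2 → ZMod 2 → ℕ)
    (C : (w u : ZMod 2) → Fin (n w u) → Finset Q) (hC : ∀ w u i, Ind F (C w u i))
    (s : Fin f → ZMod 2 → ZMod 2) (a : Q → Fin f → ZMod 2)
    (t : (Σ w : ZMod 2, Σ u : ZMod 2, Fin (n w u)) ⊕ Fin f) (x y : ZMod 2 × ZMod 2 × Q)
    (hx : x ∈ ggcK C s a t) (hy : y ∈ ggcK C s a t) : x + y ∉ gset F := by
  have hQ : ∀ q q' : Q, q + q' = 0 → q = q' := by
    intro q q' h
    have h3 := h2 q'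
    exact add_right_cancel (h.trans h3.symm)
  obtain ⟨z, v, q⟩ := x
  obtain ⟨z', v', q'⟩ := y
  intro hxy
  change (z + z' = 0 ∧ v + v' = 1 ∧ q + q' ∈ F) ∨ (z + z' = 1 ∧ q + q' = 0) at hxy
  rcases t with ⟨w, u, i⟩ | k
  · simp only [ggcK, mem_filter, mem_univ, true_and] at hx hy
    rcases hx with ⟨h3, h4, h5⟩ | ⟨h3, h5⟩ <;> rcases hy with ⟨h6, h7, h8⟩ | ⟨h6, h8⟩
    · subst h3 h4 h6 h7
      rcases hxy with ⟨_, h9, _⟩ | ⟨h9, _⟩
      · exact ggc_z0 _ h9
      · exact ggc_z0 _ h9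
    · subst h3 h6
      rcases hxy with ⟨h9, _, _⟩ | ⟨_, h9⟩
      · exact ggc_z1 _ h9
      · rw [hQ _ _ h9] at h5
        exact h5 h8
    · subst h3 h6
      rcases hxy with ⟨h9, _, _⟩ | ⟨_, h9⟩
      · exact ggc_z2 _ h9
      · rw [← hQ _ _ h9] at h8
        exact h8 h5
    · subst h3 h6
      rcases hxy with ⟨_, _, h9⟩ | ⟨h9, _⟩
      · exact hC w u i q h5 q' h8 h9
      · exact ggc_z0 _ h9
  · simp only [ggcK, mem_filter, mem_univ, true_and] at hx hy
    obtain ⟨h3, h4⟩ := hx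
    obtain ⟨h5, h6⟩ := hy
    rcases hxy with ⟨h7, h8, _⟩ | ⟨h7, h8⟩
    · have h9 := ggc_z3 _ _ h7
      subst h9
      rw [← h4, ← h6] at h8
      exact ggc_z0 _ h8
    · have h9 := hQ _ _ h8
      subst h9
      rw [← h3, ← h5] at h7
      exact ggc_z0 _ h7

theorem gcoverG {Q : Type} [AddCommGroup Q] [Fintype Q] [DecidableEq Q] (h2 : ∀ x : Q, x + x = 0)
    (F : Finset Q) (h0 : (0 : Q) ∉ F) (b m f : ℕ) (n : ZMod 2 → ZMod 2 → ℕ)
    (hm : m = n 0 0 + n 0 1 + n 1 0 + n 1 1 + f)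
    (C : (w u : ZMod 2) → Fin (n w u) → Finset Q) (hC : ∀ w u i, Ind F (C w u i))
    (s : Fin f → ZMod 2 → ZMod 2) (a : Q → Fin f → ZMod 2)
    (hcov : ∀ q w u, b + (univ.filter (fun i => q ∈ C w u i)).card ≤
      n w u + (univ.filter (fun i => q ∈ C (w + 1) 0 i)).card +
        (univ.filter (fun i => q ∈ C (w + 1) 1 i)).card +
        (univ.filter (fun k => a q k = w ∧ s k w = u)).card) :
    ∃ I : Fin m → Finset (ZMod 2 × ZMod 2 × Q),
      (∀ i, ∀ x ∈ I i, ∀ y ∈ I i, ¬ (cay (gset F)).Adj x y) ∧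
      ∀ x, b ≤ (univ.filter (fun i => x ∈ I i)).card := by
  have hcard : Fintype.card ((Σ w : ZMod 2, Σ u : ZMod 2, Fin (n w u)) ⊕ Fin f) =
      Fintype.card (Fin m) := by
    rw [Fintype.card_sum, Fintype.card_sigma, Fintype.card_fin, Fintype.card_fin, hm]
    simp only [Fintype.card_sigma, Fintype.card_fin]
    rw [ggc_sum _ 0, ggc_sum _ 0, ggc_sum _ 0]
    have h14 : (0 : ZMod 2) + 1 = 1 := rfl
    rw [h14]
    ring
  let e : Fin m ≃ (Σ w : ZMod 2, Σ u : ZMod 2, Fin (n w u)) ⊕ Fin f :=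
    (Fintype.equivOfCardEq hcard).symm
  refine ⟨fun i => ggcK C s a (e i), ?_, ?_⟩
  · intro i x hx y hy hadj
    rw [cay, SimpleGraph.fromRel_adj] at hadj
    rcases hadj.2 with h | h
    · exact ggc_ind h2 F f n C hC s a (e i) x y hx hy h
    · exact ggc_ind h2 F f n C hC s a (e i) y x hy hx h
  · rintro ⟨w, u, q⟩
    have h1 : (univ.filter (fun i => (w, u, q) ∈ ggcK C s a (e i))).card =
        (∑ w' : ZMod 2, ∑ u' : ZMod 2, ∑ i : Fin (n w' u'),
          if (w, u, q) ∈ ggcK C s a (Sum.inl ⟨w', u', i⟩) then 1 else 0) +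
        ∑ k : Fin f, if (w, u, q) ∈ ggcK C s a (Sum.inr k) then 1 else 0 := by
      rw [Finset.card_filter,
        Equiv.sum_comp e (fun t => if (w, u, q) ∈ ggcK C s a t then 1 else 0),
        Fintype.sum_sum_type, Fintype.sum_sigma]
      congr 1
      refine Finset.sum_congr rfl (fun w' _ => ?_)
      rw [Fintype.sum_sigma]
    have h3 : (∑ i : Fin (n w u), if (w, u, q) ∈ ggcK C s a (Sum.inl ⟨w, u, i⟩) then 1 else 0) +
        (univ.filter (fun i => q ∈ C w u i)).card = n w u := by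
      rw [Finset.card_filter, ← Finset.sum_add_distrib]
      have h4 : ∀ i : Fin (n w u), ((if (w, u, q) ∈ ggcK C s a (Sum.inl ⟨w, u, i⟩) then 1 else 0) +
          (if q ∈ C w u i then 1 else 0) : ℕ) = 1 := by
        intro i
        have h5 : (w, u, q) ∈ ggcK C s a (Sum.inl ⟨w, u, i⟩) ↔ q ∉ C w u i := by
          simp only [ggcK, mem_filter, mem_univ, true_and]
          constructor
          · rintro (h | ⟨h, _⟩)
            · exact h
            · exact absurd h (ggc_z4 w)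
          · intro h
            exact Or.inl h
        by_cases h6 : q ∈ C w u i
        · rw [if_neg (fun h => h5.1 h h6), if_pos h6]
        · rw [if_pos (h5.2 h6), if_neg h6]
      rw [Finset.sum_congr rfl (fun i _ => h4 i)]
      simp
    have h7 : ∀ u', (univ.filter (fun i => q ∈ C (w + 1) u' i)).card ≤
        ∑ i : Fin (n (w + 1) u'),
          if (w, u, q) ∈ ggcK C s a (Sum.inl ⟨w + 1, u', i⟩) then 1 else 0 := by
      intro u'
      rw [Finset.card_filter]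
      refine Finset.sum_le_sum (fun i _ => ?_)
      by_cases h8 : q ∈ C (w + 1) u' i
      · have h9 : (w, u, q) ∈ ggcK C s a (Sum.inl ⟨w + 1, u', i⟩) := by
          simp only [ggcK, mem_filter, mem_univ, true_and]
          exact Or.inr ⟨ggc_z5 w, h8⟩
        rw [if_pos h8, if_pos h9]
      · rw [if_neg h8]
        exact Nat.zero_le _
    have h10 : (∑ k : Fin f, if (w, u, q) ∈ ggcK C s a (Sum.inr k) then 1 else 0) =
        (univ.filter (fun k => a q k = w ∧ s k w = u)).card := by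
      rw [Finset.card_filter]
      refine Finset.sum_congr rfl (fun k _ => ?_)
      simp only [ggcK, mem_filter, mem_univ, true_and]
    have h11 := hcov q w u
    have h12 := h7 0
    have h13 := h7 1
    rw [h1, h10, ggc_sum (fun w' => ∑ u' : ZMod 2, ∑ i : Fin (n w' u'),
          if (w, u, q) ∈ ggcK C s a (Sum.inl ⟨w', u', i⟩) then 1 else 0) w,
        ggc_sum (fun u' => ∑ i : Fin (n w u'),
          if (w, u, q) ∈ ggcK C s a (Sum.inl ⟨w, u', i⟩) then 1 else 0) u,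
        ggc_sum (fun u' => ∑ i : Fin (n (w + 1) u'),
          if (w, u, q) ∈ ggcK C s a (Sum.inl ⟨w + 1, u', i⟩) then 1 else 0) 0]
    have h14 : (0 : ZMod 2) + 1 = 1 := rfl
    rw [h14]
    omega

end Pool.Agent.CubeLike
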