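import Pool.Agent.Helper927.Cube.Defs
set_option autoImplicit false
set_option maxHeartbeats 4000000

namespace Pool.Agent.CubeLike

open Finset

/-! ### TARGET: replace the `sorry`s below by proofs (auxiliary lemmas are fine, put them in this file) -/

theorem countP_get_auxG {α : Type} (p : α → Bool) (l : List α) :
    (Finset.univ.filter (fun j : Fin l.length => p (l.get j) = true)).card = l.countP p := by
  classical
  have h : l.countP p = (List.ofFn (fun j : Fin l.length => l.get j)).countP p := by
    rw [List.ofFn_get]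
  rw [h]
  rw [List.ofFn_eq_map, List.countP_map]
  rw [List.countP_eq_length_filter]
  rw [← List.toFinset_card_of_nodup ((List.nodup_finRange _).filter _)]
  congr 1
  ext j
  simp

theorem pattern_coverG {P Y : Type} [AddCommGroup P] [Fintype P] [DecidableEq P]
    [AddCommGroup Y] [Fintype Y] [DecidableEq Y] (h2 : ∀ y : Y, y + y = 0)
    (F : Finset P) (f b : ℕ) (D : ZMod 2 → ZMod 2 → ℕ) (s : Fin f → ZMod 2 → ZMod 2)
    (pat : Y → Pattern P f) (hgood : ∀ y, (pat y).GoodG F D s)
    (hsize : ∀ w u, (∑ y, ((pat y).C w u).length) + D w u ≤ b) :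
    ∃ (C : (w u : ZMod 2) → Fin (b - D w u) → Finset (P × Y)) (a : P × Y → Fin f → ZMod 2),
      (∀ w u i, Ind (farProd F) (C w u i)) ∧
      ∀ q w u, b + (univ.filter (fun i => q ∈ C w u i)).card ≤
        (b - D w u) + (univ.filter (fun i => q ∈ C (w + 1) 0 i)).card +
        (univ.filter (fun i => q ∈ C (w + 1) 1 i)).card +
        (univ.filter (fun k => a q k = w ∧ s k w = u)).card := by
  classical
  have hDb : ∀ w u, D w u ≤ b := fun w u => le_trans (Nat.le_add_left _ _) (hsize w u)
  have hemb : ∀ w u : ZMod 2, Nonempty ((Σ y : Y, Fin ((pat y).C w u).length) ↪ Fin (b - D w u)) := by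
    intro w u
    apply Function.Embedding.nonempty_of_card_le
    rw [Fintype.card_fin, Fintype.card_sigma]
    simp only [Fintype.card_fin]
    have := hsize w u
    omega
  have g : ∀ w u : ZMod 2, (Σ y : Y, Fin ((pat y).C w u).length) ↪ Fin (b - D w u) :=
    fun w u => (hemb w u).some
  refine ⟨fun w u i => univ.filter (fun q : P × Y =>
      ∃ j : Fin ((pat q.2).C w u).length, (g w u) ⟨q.2, j⟩ = i ∧ q.1 ∈ ((pat q.2).C w u).get j),
      fun q k => (pat q.2).a q.1 k, ?_, ?_⟩
  · intro w u i q hq q' hq'
    simp only [Finset.mem_filter, Finset.mem_univ, true_and] at hq hq'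
    obtain ⟨j, hj, hqj⟩ := hq
    obtain ⟨j', hj', hqj'⟩ := hq'
    obtain ⟨x, y⟩ := q
    obtain ⟨x', y'⟩ := q'
    have e := (g w u).injective (hj.trans hj'.symm)
    simp only at e hqj hqj'
    obtain ⟨e1, e2⟩ := Sigma.mk.inj_iff.1 e
    subst e1
    have e3 := eq_of_heq e2
    subst e3
    have hI := (hgood y).1 w u _ (List.get_mem ((pat y).C w u) j)
    have := hI x hqj x' hqj'
    simp only [farProd, Finset.mem_filter, Finset.mem_univ, true_and, Prod.mk_add_mk,
      h2 y]
    tauto
  · intro q w u
    have hc : ∀ w u : ZMod 2, (univ.filter (fun i : Fin (b - D w u) => q ∈ univ.filter (fun q : P × Y =>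
        ∃ j : Fin ((pat q.2).C w u).length, (g w u) ⟨q.2, j⟩ = i ∧
          q.1 ∈ ((pat q.2).C w u).get j))).card = (pat q.2).cnt w u q.1 := by
      intro w u
      unfold Pattern.cnt
      rw [← countP_get_auxG]
      symm
      apply Finset.card_bij (fun (j : Fin ((pat q.2).C w u).length) _ => (g w u) ⟨q.2, j⟩)
      · intro j hj
        simp only [Finset.mem_filter, Finset.mem_univ, true_and, decide_eq_true_eq] at hj ⊢
        exact ⟨j, rfl, hj⟩
      · intro j hj j' hj' e
        have e1 := (g w u).injective e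
        exact eq_of_heq (Sigma.mk.inj_iff.1 e1).2
      · intro i hi
        simp only [Finset.mem_filter, Finset.mem_univ, true_and, decide_eq_true_eq] at hi ⊢
        obtain ⟨j, hj, hq⟩ := hi
        exact ⟨j, hq, hj⟩
    rw [hc w u, hc (w + 1) 0, hc (w + 1) 1]
    have h3 := (hgood q.2).2 q.1 w u
    have h4 := hDb w u
    beta_reduce
    omega

end Pool.Agent.CubeLike
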