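import Pool.Agent.Helper927.Cube.Defs
import Pool.Agent.Helper927.Cube.FAR
import Pool.Agent.Helper927.Cube.GAL
import Pool.Agent.Helper927.Cube.GCG
import Pool.Agent.Helper927.Cube.LEX
import Pool.Agent.Helper927.Cube.PCG
set_option autoImplicit false
set_option maxHeartbeats 4000000

namespace Pool.Agent.CubeLike

open Finset

/-! ### TARGET: replace the `sorry`s below by proofs (auxiliary lemmas are fine, put them in this file) -/

theorem famG (n f c κ k b m : ℕ) (D : ZMod 2 → ZMod 2 → ℕ) (gens : List ℕ) (h0 : 0 ∉ gens)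
    (s : Fin f → ZMod 2 → ZMod 2) (pt : XN k → Pattern (XN n) f)
    (hgood : ∀ y, (pt y).GoodG (farSet n gens) D s)
    (hsize : ∀ w u, (∑ y, ((pt y).C w u).length) + D w u ≤ b)
    (hc : ∀ A : Finset (XN n), Ind (farSet n gens) A → A.card ≤ c)
    (hκ : ∀ A L : Finset (XN n), A.Nonempty → Ind (farSet n gens) A →
      (∀ x ∈ A, ∀ y ∈ L, x + y ∉ farSet n gens) → L.card + A.card ≤ κ)
    (h2κ : 2 * κ ≤ 2 ^ n * 2 ^ k + c)
    (hm0 : 0 < m) (hm : m + (D 0 0 + D 0 1 + D 1 0 + D 1 1) = 4 * b + f)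
    (hlow : (m - 1) * (2 ^ n * 2 ^ k + c) < b * (4 * (2 ^ n * 2 ^ k))) (hb : Att b) : Att m := by
  have h2P : ∀ x : XN n, x + x = 0 := fun x => XN.add_self x
  have h2Y : ∀ y : XN k, y + y = 0 := fun y => XN.add_self y
  have h2Q : ∀ q : XN n × XN k, q + q = 0 := fun q => Prod.ext (h2P q.1) (h2Y q.2)
  have hF0 : (0 : XN n) ∉ farSet n gens := by
    intro h
    have h1 := (Finset.mem_filter.1 h).2
    rw [XN.zero_val] at h1
    exact h0 h1
  obtain ⟨h0', hc', hκ'⟩ := farProd_bounds (Y := XN k) h2Y (farSet n gens) hF0 c κ hc hκ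
  have hcardQ : Fintype.card (XN n × XN k) = 2 ^ n * 2 ^ k := by
    rw [Fintype.card_prod, XN.card, XN.card]
  obtain ⟨C, a, hCind, hcov⟩ := pattern_coverG h2Y (farSet n gens) f b D s pt hgood hsize
  have hDb : ∀ w u, D w u ≤ b := by
    intro w u
    have h := hsize w u
    omega
  have hm' : m = (b - D 0 0) + (b - D 0 1) + (b - D 1 0) + (b - D 1 1) + f := by
    have h00 := hDb 0 0
    have h01 := hDb 0 1
    have h10 := hDb 1 0
    have h11 := hDb 1 1
    omega
  obtain ⟨I, hI, hIcov⟩ := gcoverG h2Q (farProd (Y := XN k) (farSet n gens)) h0' b m f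
    (fun w u => b - D w u) hm' C hCind s a hcov
  have h2V : ∀ v : ZMod 2 × ZMod 2 × (XN n × XN k), v + v = 0 := by
    intro v
    have hz : ∀ z : ZMod 2, z + z = 0 := by decide
    exact Prod.ext (hz v.1) (Prod.ext (hz v.2.1) (h2Q v.2.2))
  have hcardV : Fintype.card (ZMod 2 × ZMod 2 × (XN n × XN k)) =
      4 * (2 ^ n * 2 ^ k) := by
    rw [Fintype.card_prod, Fintype.card_prod, ZMod.card, hcardQ]
    ring
  refine lex h2V (gset (farProd (Y := XN k) (farSet n gens))) b m (2 ^ n * 2 ^ k + c) hm0 I hI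
    hIcov ?_ ?_ hb
  · intro J hJ
    have h := galpha h2Q (farProd (Y := XN k) (farSet n gens)) h0' c κ hc' hκ'
      (by rw [hcardQ]; exact h2κ) J hJ
    rw [hcardQ] at h
    exact h
  · rw [hcardV]
    exact hlow

end Pool.Agent.CubeLike
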