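import Pool.Agent.Helper927.Cube.Defs
set_option autoImplicit false
set_option maxHeartbeats 4000000

namespace Pool.Agent.CubeLike

open Finset

/-! ### AVAILABLE: statements you may use; leave these `sorry`s in place (they are proved in other jobs) -/



/-! ### TARGET: replace the `sorry`s below by proofs (auxiliary lemmas are fine, put them in this file) -/

theorem att_all_of (h1 : Att 1) (h2 : Att 2) (hd : ∀ b, Att b → Att (2 * b))
    (f1 : ∀ t b, 2 ^ t + 2 ≤ b → b ≤ 2 * 2 ^ t → Att b → Att (4 * b - 1))
    (f2 : ∀ t b, 3 * 2 ^ t + 2 ≤ b → b ≤ 4 * 2 ^ t → Att b → Att (4 * b - 3))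
    (f3 : ∀ t b, 4 * 2 ^ t + 2 ≤ b → 6 * b < 32 * 2 ^ t + 6 → Att b → Att (4 * b - 3))
    (f4 : ∀ t b, 5 * 2 ^ t + 3 ≤ b → 5 * b < 32 * 2 ^ t + 5 → Att b → Att (4 * b - 3))
    (f5 : ∀ t b, 31 * 2 ^ t + 3 ≤ b → 22 * b < 768 * 2 ^ t + 33 → Att b → Att (4 * b - 5))
    (f6 : ∀ t b, 8 * 2 ^ t + 2 ≤ b → 24 * b < 224 * 2 ^ t + 42 → Att b → Att (4 * b - 6))
    (a6 : Att 6) (a7 : Att 7) (a10 : Att 10) (a11 : Att 11) (a13 : Att 13) (a18 : Att 18)
    (a19 : Att 19) (a25 : Att 25) (a35 : Att 35) (a45 : Att 45) (a67 : Att 67)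
    (K : ℕ) (hK : 2 ≤ K) (m : ℕ) (hm : 2 ^ K + 2 ≤ m) (hm' : m ≤ 2 ^ (K + 1)) : Att m := by
  have hpow : ∀ k : ℕ, Att (2 ^ k) := by
    intro k
    induction k with
    | zero => simpa using h1
    | succ k ih =>
      have h := hd _ ih
      rwa [pow_succ, mul_comm]
  suffices hmain : ∀ m : ℕ, ∀ K : ℕ, 2 ≤ K → 2 ^ K + 2 ≤ m → m ≤ 2 ^ (K + 1) → Att m from
    hmain m K hK hm hm'
  clear hm hm' hK m K
  intro m
  induction m using Nat.strong_induction_on with
  | _ m IH =>
  intro K hK hm hm'
  have H : ∀ L b : ℕ, 1 ≤ L → b < m → 2 ^ L + 2 ≤ b → b ≤ 2 ^ (L + 1) → Att b := by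
    intro L b hL hbm hb hb'
    rcases Nat.lt_or_ge L 2 with h | h
    · have hL1 : L = 1 := by omega
      subst hL1
      have hb4 : b = 2 ^ 2 := by
        norm_num at hb hb'
        omega
      rw [hb4]
      exact hpow 2
    · exact IH b hbm L h hb hb'
  obtain ⟨j, rfl⟩ : ∃ j, K = j + 2 := ⟨K - 2, by omega⟩
  have e1 : 2 ^ (j + 1) = 2 * 2 ^ j := by rw [pow_succ, mul_comm]
  have e2 : 2 ^ (j + 2) = 4 * 2 ^ j := by rw [pow_add]; norm_num [mul_comm]
  have e3 : 2 ^ (j + 2 + 1) = 8 * 2 ^ j := by
    rw [show j + 2 + 1 = j + 3 from rfl, pow_add]; norm_num [mul_comm]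
  have hp : 1 ≤ 2 ^ j := Nat.one_le_two_pow
  rw [e2] at hm
  rw [e3] at hm'
  rcases Nat.even_or_odd' m with ⟨b, hb | hb⟩
  · -- even
    subst hb
    rcases Nat.lt_or_ge b (2 * 2 ^ j + 2) with h | h
    · have hb1 : b = 2 * 2 ^ j + 1 := by omega
      rcases j with _ | _ | _ | t
      · have : 2 * b = 6 := by norm_num at hb1; omega
        rw [this]; exact a6
      · have : 2 * b = 10 := by norm_num at hb1; omega
        rw [this]; exact a10
      · have : 2 * b = 18 := by norm_num at hb1; omega
        rw [this]; exact a18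
      · have e4 : 2 ^ (t + 1 + 1 + 1) = 8 * 2 ^ t := by
          rw [show t + 1 + 1 + 1 = t + 3 from rfl, pow_add]; norm_num [mul_comm]
        have e5 : 2 ^ (t + 1 + 1 + 1 + 1) = 16 * 2 ^ t := by
          rw [show t + 1 + 1 + 1 + 1 = t + 4 from rfl, pow_add]; norm_num [mul_comm]
        have hq : 1 ≤ 2 ^ t := Nat.one_le_two_pow
        have hA : Att (8 * 2 ^ t + 2) := by
          apply H (t + 1 + 1 + 1) (8 * 2 ^ t + 2) (by omega)
          · omega
          · omega
          · omega
        have := f6 t (8 * 2 ^ t + 2) (by omega) (by omega) hA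
        have e6 : 4 * (8 * 2 ^ t + 2) - 6 = 2 * b := by omega
        rwa [e6] at this
    · apply hd
      apply H (j + 1) b (by omega)
      · omega
      · omega
      · have : 2 ^ (j + 1 + 1) = 4 * 2 ^ j := e2
        omega
  · -- odd
    have hmod : m % 4 = 1 ∨ m % 4 = 3 := by omega
    rcases hmod with h4 | h4
    · -- m % 4 = 1
      obtain ⟨c, hc⟩ : ∃ c, m + 3 = 4 * c := ⟨(m + 3) / 4, by omega⟩
      have hc1 : 2 ^ j + 2 ≤ c := by omega
      have hc2 : c ≤ 2 * 2 ^ j := by omega
      rcases j with _ | _ | t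
      · norm_num at hc1 hc2
        omega
      · norm_num at hc1 hc2
        have : m = 13 := by omega
        rw [this]; exact a13
      · have e4 : 2 ^ (t + 1 + 1) = 4 * 2 ^ t := by
          rw [show t + 1 + 1 = t + 2 from rfl, pow_add]; norm_num [mul_comm]
        have e5 : 2 ^ (t + 1 + 1 + 1) = 8 * 2 ^ t := by
          rw [show t + 1 + 1 + 1 = t + 3 from rfl, pow_add]; norm_num [mul_comm]
        have e6 : 2 ^ (t + 1) = 2 * 2 ^ t := by rw [pow_succ, mul_comm]
        have hq : 1 ≤ 2 ^ t := Nat.one_le_two_pow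
        have hA : Att c := by
          apply H (t + 1 + 1) c (by omega)
          · omega
          · omega
          · omega
        have hm4 : 4 * c - 3 = m := by omega
        rcases Nat.lt_or_ge (6 * c) (32 * 2 ^ t + 6) with g | g
        · have := f3 t c (by omega) g hA
          rwa [hm4] at this
        · rcases Nat.lt_or_ge (5 * c) (32 * 2 ^ t + 5) with g2 | g2
          · rcases Nat.lt_or_ge c (5 * 2 ^ t + 3) with g3 | g3
            · rcases t with _ | _ | t
              · have : m = 25 := by norm_num at g g2 g3; omega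
                rw [this]; exact a25
              · have : m = 45 := by norm_num at g g2 g3; omega
                rw [this]; exact a45
              · have e7 : 2 ^ (t + 1 + 1) = 4 * 2 ^ t := by
                  rw [show t + 1 + 1 = t + 2 from rfl, pow_add]; norm_num [mul_comm]
                have hq2 : 1 ≤ 2 ^ t := Nat.one_le_two_pow
                omega
            · have := f4 t c g3 g2 hA
              rwa [hm4] at this
          · have := f2 (t + 1) c (by omega) (by omega) hA
            rwa [hm4] at this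
    · -- m % 4 = 3
      rcases Nat.lt_or_ge m (4 * 2 ^ j + 7) with g | g
      · have hm3 : m = 4 * 2 ^ j + 3 := by omega
        rcases j with _ | _ | _ | _ | _ | t
        · have : m = 7 := by norm_num at hm3; omega
          rw [this]; exact a7
        · have : m = 11 := by norm_num at hm3; omega
          rw [this]; exact a11
        · have : m = 19 := by norm_num at hm3; omega
          rw [this]; exact a19
        · have : m = 35 := by norm_num at hm3; omega
          rw [this]; exact a35
        · have : m = 67 := by norm_num at hm3; omega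
          rw [this]; exact a67
        · have e4 : 2 ^ (t + 1 + 1 + 1 + 1 + 1) = 32 * 2 ^ t := by
            rw [show t + 1 + 1 + 1 + 1 + 1 = t + 5 from rfl, pow_add]; norm_num [mul_comm]
          have e5 : 2 ^ (t + 1 + 1 + 1 + 1 + 1 + 1) = 64 * 2 ^ t := by
            rw [show t + 1 + 1 + 1 + 1 + 1 + 1 = t + 6 from rfl, pow_add]; norm_num [mul_comm]
          have hq : 1 ≤ 2 ^ t := Nat.one_le_two_pow
          have hA : Att (32 * 2 ^ t + 2) := by
            apply H (t + 1 + 1 + 1 + 1 + 1) (32 * 2 ^ t + 2) (by omega)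
            · omega
            · omega
            · omega
          have := f5 t (32 * 2 ^ t + 2) (by omega) (by omega) hA
          have e6 : 4 * (32 * 2 ^ t + 2) - 5 = m := by omega
          rwa [e6] at this
      · obtain ⟨c, hc⟩ : ∃ c, m + 1 = 4 * c := ⟨(m + 1) / 4, by omega⟩
        have hc1 : 2 ^ j + 2 ≤ c := by omega
        have hc2 : c ≤ 2 * 2 ^ j := by omega
        have hj : 1 ≤ j := by
          rcases j with _ | j
          · norm_num at hc1 hc2
            omega
          · omega
        have hA : Att c := by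
          apply H j c hj
          · omega
          · exact hc1
          · omega
        have := f1 j c hc1 hc2 hA
        have e6 : 4 * c - 1 = m := by omega
        rwa [e6] at this

end Pool.Agent.CubeLike
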