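import Pool.Agent.Helper927.Cube.Defs
import Pool.Agent.Helper927.Cube.TR
set_option autoImplicit false
set_option maxHeartbeats 4000000

namespace Pool.Agent.CubeLike

open Finset

/-! ### TARGET: replace the `sorry`s below by proofs (auxiliary lemmas are fine, put them in this file) -/

theorem py_add_self {d : ℕ} (x : Fin d → ZMod 2) : x + x = 0 := by
  funext i
  have : ∀ a : ZMod 2, a + a = 0 := by decide
  exact this (x i)

/-- winding number of a path -/
def pyWin {W : Type} [Add W] (δ : W → W → ℤ) : W → List W → ℤ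
  | _, [] => 0
  | x, s :: l => δ x s + pyWin δ (x + s) l

/-- the step function of a colouring -/
def pyD {W : Type} [Add W] (c : W → ZMod 3) (x s : W) : ℤ := if c (x + s) - c x = 1 then 1 else -1

theorem pyD_pm {W : Type} [Add W] (c : W → ZMod 3) (x s : W) : pyD c x s = 1 ∨ pyD c x s = -1 := by
  unfold pyD; split_ifs
  · exact Or.inl rfl
  · exact Or.inr rfl

theorem pyD_cast {W : Type} [Add W] (c : W → ZMod 3) (x s : W) (h : c (x + s) ≠ c x) :
    ((pyD c x s : ℤ) : ZMod 3) = c (x + s) - c x := by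
  unfold pyD
  generalize c (x + s) = a at *
  generalize c x = b at *
  revert a b
  decide

section Payan
variable {d : ℕ} (c : (Fin d → ZMod 2) → ZMod 3) (T : Set (Fin d → ZMod 2))
  (hc : ∀ x, ∀ s ∈ T, c (x + s) ≠ c x)

include hc in
theorem py_swap (x s t : Fin d → ZMod 2) (hs : s ∈ T) (ht : t ∈ T) :
    pyD c x s + pyD c (x + s) t = pyD c x t + pyD c (x + t) s := by
  have h1 := pyD_cast c x s (hc x s hs)
  have h2 := pyD_cast c (x + s) t (hc _ t ht)
  have h3 := pyD_cast c x t (hc x t ht)
  have h4 := pyD_cast c (x + t) s (hc _ s hs)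
  have e : x + t + s = x + s + t := by abel
  rw [e] at h4
  have h5 : ((pyD c x s + pyD c (x + s) t - (pyD c x t + pyD c (x + t) s) : ℤ) : ZMod 3) = 0 := by
    push_cast
    rw [h1, h2, h3, h4]
    ring
  have h6 : (3 : ℤ) ∣ pyD c x s + pyD c (x + s) t - (pyD c x t + pyD c (x + t) s) :=
    (ZMod.intCast_zmod_eq_zero_iff_dvd _ 3).1 h5
  rcases pyD_pm c x s with a | a <;> rcases pyD_pm c (x + s) t with b | b <;>
    rcases pyD_pm c x t with a' | a' <;> rcases pyD_pm c (x + t) s with b' | b' <;>
    rw [a, b, a', b'] at h6 ⊢ <;> omega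

include hc in
theorem py_back (x s : Fin d → ZMod 2) (hs : s ∈ T) : pyD c (x + s) s = -pyD c x s := by
  have h1 := pyD_cast c x s (hc x s hs)
  have h2 := pyD_cast c (x + s) s (hc _ s hs)
  have e : x + s + s = x := by rw [add_assoc, py_add_self, add_zero]
  rw [e] at h2
  have h5 : ((pyD c x s + pyD c (x + s) s : ℤ) : ZMod 3) = 0 := by
    push_cast
    rw [h1, h2]
    ring
  have h6 : (3 : ℤ) ∣ pyD c x s + pyD c (x + s) s :=
    (ZMod.intCast_zmod_eq_zero_iff_dvd _ 3).1 h5
  rcases pyD_pm c x s with a | a <;> rcases pyD_pm c (x + s) s with b | b <;>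
    rw [a, b] at h6 ⊢ <;> omega

theorem py_append (l l' : List (Fin d → ZMod 2)) : ∀ x,
    pyWin (pyD c) x (l ++ l') = pyWin (pyD c) x l + pyWin (pyD c) (x + l.sum) l' := by
  induction l with
  | nil => intro x; simp [pyWin]
  | cons s l ih =>
    intro x
    rw [List.cons_append, pyWin, pyWin, ih, List.sum_cons, add_assoc x s l.sum]
    ring

include hc in
theorem py_perm {l l' : List (Fin d → ZMod 2)} (h : l.Perm l') :
    (∀ s ∈ l, s ∈ T) → ∀ x, pyWin (pyD c) x l = pyWin (pyD c) x l' := by
  induction h with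
  | nil => intro _ x; rfl
  | cons s _ ih =>
    intro hl x
    rw [pyWin, pyWin, ih (fun t ht => hl t (List.mem_cons_of_mem _ ht))]
  | swap s t l =>
    intro hl x
    have hs : s ∈ T := hl s (by simp)
    have ht : t ∈ T := hl t (by simp)
    rw [pyWin, pyWin, pyWin, pyWin]
    have := py_swap c T hc x s t hs ht
    have e : x + t + s = x + s + t := by abel
    rw [e]
    linarith
  | trans h1 _ ih1 ih2 =>
    intro hl x
    rw [ih1 hl x, ih2 (fun s hs => hl s (h1.mem_iff.2 hs)) x]

include hc in
theorem py_rev (l : List (Fin d → ZMod 2)) : (∀ s ∈ l, s ∈ T) → ∀ x,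
    pyWin (pyD c) (x + l.sum) l.reverse = - pyWin (pyD c) x l := by
  induction l with
  | nil => intro _ x; simp [pyWin]
  | cons s l ih =>
    intro hl x
    have hs : s ∈ T := hl s (by simp)
    rw [List.reverse_cons, py_append, List.sum_cons, ← add_assoc x s l.sum,
      ih (fun t ht => hl t (List.mem_cons_of_mem _ ht)), List.sum_reverse,
      add_assoc (x + s) l.sum l.sum, py_add_self, add_zero, pyWin, pyWin, pyWin,
      py_back c T hc x s hs]
    ring

theorem py_parity (l : List (Fin d → ZMod 2)) : ∀ x,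
    (pyWin (pyD c) x l - l.length) % 2 = 0 := by
  induction l with
  | nil => intro x; simp [pyWin]
  | cons s l ih =>
    intro x
    rw [pyWin, List.length_cons]
    have h1 := ih (x + s)
    push_cast
    rcases pyD_pm c x s with a | a <;> rw [a] <;> omega

include hc in
theorem py_no_odd (l : List (Fin d → ZMod 2)) (hl : ∀ s ∈ l, s ∈ T) (hodd : Odd l.length)
    (hsum : l.sum = 0) : False := by
  have h1 := py_perm c T hc (List.reverse_perm l).symm hl 0
  have h2 := py_rev c T hc l hl 0
  rw [hsum, add_zero] at h2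
  have h3 := py_parity c l 0
  obtain ⟨k, hk⟩ := hodd
  rw [hk] at h3
  push_cast at h3
  omega

end Payan

theorem py_two {d : ℕ} (S : Set (Fin d → ZMod 2))
    (h : ∀ l : List (Fin d → ZMod 2), (∀ s ∈ l, s ∈ S ∧ s ≠ 0) → Odd l.length → l.sum ≠ 0) :
    (cay S).Colorable 2 := by
  have hz2 : ∀ a b : ZMod 2, a ≠ 0 → b ≠ 0 → a = b := by decide
  have key : ∃ f : (Fin d → ZMod 2) →ₗ[ZMod 2] ZMod 2, ∀ s ∈ S, s ≠ 0 → f s ≠ 0 := by
    by_cases hT : ∃ s0, s0 ∈ S ∧ s0 ≠ 0
    · obtain ⟨s0, hs0, hs0'⟩ := hT
      let K : Submodule (ZMod 2) (Fin d → ZMod 2) :=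
        { carrier := {w | ∃ l : List (Fin d → ZMod 2), (∀ s ∈ l, s ∈ S ∧ s ≠ 0) ∧
            Even l.length ∧ l.sum = w}
          add_mem' := by
            rintro a b ⟨l, h1, h2, h3⟩ ⟨l', h1', h2', h3'⟩
            refine ⟨l ++ l', ?_, ?_, ?_⟩
            · intro s hs
              rcases List.mem_append.1 hs with hs | hs
              · exact h1 s hs
              · exact h1' s hs
            · rw [List.length_append]; exact h2.add h2'
            · rw [List.sum_append, h3, h3']
          zero_mem' := ⟨[], by simp, by simp, by simp⟩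
          smul_mem' := by
            intro r x hx
            have hr : ∀ r : ZMod 2, r = 0 ∨ r = 1 := by decide
            rcases hr r with rfl | rfl
            · rw [zero_smul]
              exact ⟨[], by simp, by simp, by simp⟩
            · rw [one_smul]; exact hx }
      have hK : s0 ∉ K := by
        rintro ⟨l, h1, h2, h3⟩
        refine h (s0 :: l) ?_ ?_ ?_
        · intro s hs
          rcases List.mem_cons.1 hs with rfl | hs
          · exact ⟨hs0, hs0'⟩
          · exact h1 s hs
        · rw [List.length_cons]; exact h2.add_one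
        · rw [List.sum_cons, h3, py_add_self]
      obtain ⟨f, hf1, hf2⟩ := Submodule.exists_dual_map_eq_bot_of_notMem hK inferInstance
      refine ⟨f, fun s hs hs' => ?_⟩
      have h1 : s + s0 ∈ K := ⟨[s, s0], by
        intro t ht
        simp only [List.mem_cons, List.not_mem_nil, or_false] at ht
        rcases ht with rfl | rfl
        · exact ⟨hs, hs'⟩
        · exact ⟨hs0, hs0'⟩, ⟨1, rfl⟩, by simp⟩
      have h2 : f (s + s0) ∈ K.map f := Submodule.mem_map_of_mem h1
      rw [hf2, Submodule.mem_bot, map_add] at h2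
      have h3 : ∀ a b : ZMod 2, a + b = 0 → b ≠ 0 → a ≠ 0 := by decide
      exact h3 _ _ h2 hf1
    · push Not at hT
      exact ⟨0, fun s hs hs' => absurd (hT s hs) hs'⟩
  obtain ⟨f, hf⟩ := key
  refine ⟨SimpleGraph.Coloring.mk (fun x => (f x : ZMod 2)) ?_⟩
  intro x y hxy heq
  rw [cay, SimpleGraph.fromRel_adj] at hxy
  obtain ⟨hne, h1⟩ := hxy
  have h2 : x + y ∈ S := by
    rcases h1 with h1 | h1
    · exact h1
    · rw [add_comm]; exact h1
  have h3 : x + y ≠ 0 := by
    intro h0
    apply hne
    have : x + y + y = 0 + y := by rw [h0]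
    rw [add_assoc, py_add_self, add_zero, zero_add] at this
    exact this
  have h4 := hf _ h2 h3
  rw [map_add] at h4
  have h5 : ∀ a b : ZMod 2, a = b → a + b = 0 := by decide
  exact h4 (h5 _ _ heq)

theorem not_att_three : ¬ Att 3 := by
  intro hatt
  obtain ⟨_, d, S, ⟨c⟩, h2⟩ := Att.exists_colorable hatt
  apply h2
  apply py_two
  intro l hl hodd hsum
  refine py_no_odd (d := d) (fun x => (c x : ZMod 3)) {s | s ∈ S ∧ s ≠ 0} ?_ l hl hodd hsum
  rintro x s ⟨hs, hs0⟩ heq
  have hadj : (cay S).Adj (x + s) x := by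
    rw [cay, SimpleGraph.fromRel_adj]
    refine ⟨fun h => hs0 (by simpa using h), Or.inr ?_⟩
    rw [← add_assoc, py_add_self, zero_add]
    exact hs
  exact c.valid hadj heq

end Pool.Agent.CubeLike
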