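import Pool.Agent.Helper927.Cube.Defs
set_option autoImplicit false
set_option maxHeartbeats 4000000

namespace Pool.Agent.CubeLike

open Finset

/-! ### TARGET: replace the `sorry`s below by proofs (auxiliary lemmas are fine, put them in this file) -/

theorem ind_of_maskInd_g284 (n : ℕ) (gens : List ℕ) (M : ℕ) (h : maskInd n gens M = true) :
    Ind (farSet n gens) (maskSet n M) := by
  intro x hx y hy hxy
  have hx' : M.testBit x.1 = true := (Finset.mem_filter.1 hx).2
  have hy' : M.testBit y.1 = true := (Finset.mem_filter.1 hy).2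
  have hg : x.1 ^^^ y.1 ∈ gens := (Finset.mem_filter.1 hxy).2
  unfold maskInd at h
  rw [List.all_eq_true] at h
  have h1 := h x.1 (List.mem_range.2 x.2)
  rw [hx', Bool.not_true, Bool.false_or, List.all_eq_true] at h1
  have h2 := h1 _ hg
  rw [← Nat.xor_assoc, Nat.xor_self, Nat.zero_xor, hy'] at h2
  exact absurd h2 (by decide)

theorem countP_range_fin_g284 (f : ℕ) (q : ℕ → Bool) :
    (List.range f).countP q = (univ.filter (fun k : Fin f => q k.1 = true)).card := by
  rw [Finset.card_filter]
  induction f with
  | zero => simp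
  | succ m ih =>
    rw [List.range_succ, List.countP_append, ih, Fin.sum_univ_castSucc]
    congr 1
    simp only [List.countP_cons, List.countP_nil, Fin.val_last, zero_add]

theorem cnt_natPat_g284 (n f : ℕ) (c00 c01 c10 c11 asg : List ℕ) (w u : ZMod 2) (x : XN n) :
    (natPat n f c00 c01 c10 c11 asg).cnt w u x =
      (sel c00 c01 c10 c11 w u).countP (fun M => M.testBit x.1) := by
  unfold Pattern.cnt natPat
  simp only [List.countP_map]
  congr 1
  funext M
  simp only [Function.comp, maskSet, Finset.mem_filter, Finset.mem_univ, true_and,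
    Bool.decide_eq_true]

theorem flex_count_g284 (n f : ℕ) (c00 c01 c10 c11 asg : List ℕ) (s0 s1 : ℕ) (w u : ZMod 2) (x : XN n)
    (q : ℕ → Bool)
    (hq : ∀ k : ℕ, q k = true ↔
      ((if (asg.getD x.1 0).testBit k = true then (1 : ZMod 2) else 0) = w ∧
        (if w = 0 then (if s0.testBit k = true then (1 : ZMod 2) else 0)
          else (if s1.testBit k = true then 1 else 0)) = u)) :
    (univ.filter (fun k => (natPat n f c00 c01 c10 c11 asg).a x k = w ∧
      sides f s0 s1 k w = u)).card = (List.range f).countP q := by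
  rw [countP_range_fin_g284]
  congr 1
  ext k
  simp only [Finset.mem_filter, Finset.mem_univ, true_and]
  rw [hq]
  rfl

theorem goodG_of_patOKG (n f d00 d01 d10 d11 : ℕ) (gens c00 c01 c10 c11 asg : List ℕ) (s0 s1 : ℕ)
    (h : patOKG n f d00 d01 d10 d11 gens c00 c01 c10 c11 asg s0 s1 = true) :
    (natPat n f c00 c01 c10 c11 asg).GoodG (farSet n gens) (sel d00 d01 d10 d11)
      (sides f s0 s1) := by
  unfold patOKG at h
  simp only [Bool.and_eq_true] at h
  obtain ⟨⟨⟨⟨h1, h2⟩, h3⟩, h4⟩, h5⟩ := h
  rw [List.all_eq_true] at h1 h2 h3 h4 h5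
  have hz : ∀ w : ZMod 2, w = 0 ∨ w = 1 := by decide
  have e10 : (1 : ZMod 2) ≠ 0 := by decide
  have e01 : (0 : ZMod 2) ≠ 1 := by decide
  have a01 : (0 : ZMod 2) + 1 = 1 := by decide
  have a11 : (1 : ZMod 2) + 1 = 0 := by decide
  refine ⟨?_, ?_⟩
  · intro w u C hC
    have hC' : ∃ M ∈ sel c00 c01 c10 c11 w u, maskSet n M = C := List.mem_map.1 hC
    obtain ⟨M, hM, rfl⟩ := hC'
    apply ind_of_maskInd_g284
    rcases hz w with rfl | rfl <;> rcases hz u with rfl | rfl
    · exact h1 M hM
    · exact h2 M hM
    · exact h3 M hM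
    · exact h4 M hM
  · intro x w u
    have hx := h5 x.1 (List.mem_range.2 x.2)
    simp only [Bool.and_eq_true, decide_eq_true_eq] at hx
    obtain ⟨⟨⟨g1, g2⟩, g3⟩, g4⟩ := hx
    rcases hz w with rfl | rfl <;> rcases hz u with rfl | rfl
    · rw [cnt_natPat_g284, cnt_natPat_g284, cnt_natPat_g284, a01,
        flex_count_g284 n f c00 c01 c10 c11 asg s0 s1 0 0 x
          (fun k => !(asg.getD x.1 0).testBit k && !s0.testBit k) (by
            intro k
            cases (asg.getD x.1 0).testBit k <;> cases s0.testBit k <;> simp)]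
      exact g1
    · rw [cnt_natPat_g284, cnt_natPat_g284, cnt_natPat_g284, a01,
        flex_count_g284 n f c00 c01 c10 c11 asg s0 s1 0 1 x
          (fun k => !(asg.getD x.1 0).testBit k && s0.testBit k) (by
            intro k
            cases (asg.getD x.1 0).testBit k <;> cases s0.testBit k <;> simp)]
      exact g2
    · rw [cnt_natPat_g284, cnt_natPat_g284, cnt_natPat_g284, a11,
        flex_count_g284 n f c00 c01 c10 c11 asg s0 s1 1 0 x
          (fun k => (asg.getD x.1 0).testBit k && !s1.testBit k) (by
            intro k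
            cases (asg.getD x.1 0).testBit k <;> cases s1.testBit k <;> simp)]
      exact g3
    · rw [cnt_natPat_g284, cnt_natPat_g284, cnt_natPat_g284, a11,
        flex_count_g284 n f c00 c01 c10 c11 asg s0 s1 1 1 x
          (fun k => (asg.getD x.1 0).testBit k && s1.testBit k) (by
            intro k
            cases (asg.getD x.1 0).testBit k <;> cases s1.testBit k <;> simp)]
      exact g4

end Pool.Agent.CubeLike
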